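import Pool.Agent.Helper16.N3.LemmaP

/-!
# Lemma P: the matrix
-/

set_option autoImplicit false
set_option linter.unusedSectionVars false

namespace Helper16.N3

open Finset Helper16.SQG

section Forms

variable {R Λ Cc ι V : Type} {cap : ι → ℕ}

/-- the global columns: the columns of the free entries and classes of equal columns -/
abbrev PCol (Cc ι : Type) (cap : ι → ℕ) : Type := Cc ⊕ (Σ i : ι, Fin (cap i))

/-- a multiple of a class -/
noncomputable def pc [DecidableEq ι] (i : ι) (z : ℂ) : PCol Cc ι cap → ℂ ⊕ V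
  | Sum.inl _ => Sum.inl 0
  | Sum.inr q => Sum.inl (if q.1 = i then z else 0)

/-- a column -/
noncomputable def px [DecidableEq Cc] (c : Cc) : PCol Cc ι cap → ℂ ⊕ V
  | Sum.inl c' => Sum.inl (if c' = c then 1 else 0)
  | Sum.inr _ => Sum.inl 0

open Classical in
/-- the entry at a position of the free rows -/
noncomputable def pslot (co : R → Λ → Cc) (r : R) (c : Cc) : ℂ ⊕ (R × Λ) :=
  if h : ∃ k, co r k = c then Sum.inr (r, h.choose) else Sum.inl 0

theorem pslot_pos (co : R → Λ → Cc) (hco : ∀ r, Function.Injective (co r)) (r : R) (k : Λ) :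
    pslot co r (co r k) = Sum.inr (r, k) := by
  have h2 : ∃ k', co r k' = co r k := ⟨k, rfl⟩
  unfold pslot
  rw [dif_pos h2, hco r h2.choose_spec]

theorem pslot_neg (co : R → Λ → Cc) (r : R) (c : Cc) (h : ¬ ∃ k, co r k = c) :
    pslot co r c = Sum.inl 0 := by
  unfold pslot
  rw [dif_neg h]

/-- the free entries -/
noncomputable def py (co : R → Λ → Cc) (r : R) : PCol Cc ι cap → ℂ ⊕ (R × Λ)
  | Sum.inl c => pslot co r c
  | Sum.inr _ => Sum.inl 0

variable {A B : Type} [CommRing A] [Algebra ℂ A] [CommRing B] [Algebra A B]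
  [Fintype R] [Fintype Λ] [Fintype Cc] [Fintype ι]

theorem form_pc [DecidableEq ι] (Y : V → A) (x : PCol Cc ι cap → B) (i : ι) (z : ℂ) :
    form Y x (pc i z) = algebraMap A B (algebraMap ℂ A z) * ∑ k, x (Sum.inr ⟨i, k⟩) := by
  unfold form
  rw [Fintype.sum_sum_type]
  simp only [pc, val, Sum.elim_inl, map_zero, zero_mul, sum_const_zero, zero_add]
  rw [Fintype.sum_sigma, Finset.sum_eq_single i]
  · simp [mul_sum]
  · intro j' _ h
    simp [h]
  · simp

theorem form_px [DecidableEq Cc] (Y : V → A) (x : PCol Cc ι cap → B) (c : Cc) :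
    form Y x (px c) = x (Sum.inl c) := by
  unfold form
  rw [Fintype.sum_sum_type]
  simp only [px, val, Sum.elim_inl, map_zero, zero_mul, sum_const_zero, add_zero]
  rw [Finset.sum_eq_single c]
  · simp
  · intro c' _ h
    simp [h]
  · simp

theorem form_py (co : R → Λ → Cc) (hco : ∀ r, Function.Injective (co r)) (Y : R × Λ → A)
    (x : PCol Cc ι cap → B) (r : R) :
    form Y x (py co r) = ∑ k, algebraMap A B (Y (r, k)) * x (Sum.inl (co r k)) := by
  classical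
  unfold form
  rw [Fintype.sum_sum_type]
  simp only [py, val, Sum.elim_inl, map_zero, zero_mul, sum_const_zero, add_zero]
  have h1 : ∑ k, algebraMap A B (Y (r, k)) * x (Sum.inl (co r k)) =
      ∑ c ∈ univ.image (co r), algebraMap A B (Sum.elim (algebraMap ℂ A) Y (pslot co r c)) *
          x (Sum.inl c) := by
    rw [sum_image fun _ _ _ _ h => hco r h]
    refine Finset.sum_congr rfl fun k _ => ?_
    rw [pslot_pos co hco, Sum.elim_inr]
  rw [h1]
  symm
  apply Finset.sum_subset (subset_univ _)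
  intro c _ hc
  have h2 : ¬ ∃ k, co r k = c := by
    rintro ⟨k, rfl⟩
    exact hc (mem_image_of_mem _ (mem_univ k))
  rw [pslot_neg co r c h2, Sum.elim_inl, map_zero, map_zero, zero_mul]

end Forms

section Main

variable {R Λ Cc τ X : Type}

/-- the index types of the super rows -/
def KP (m : R → τ → ℕ) (m' : Cc → τ → ℕ) (mx : X → τ → ℕ) (Q : X → ℕ) :
    R ⊕ Cc ⊕ (Σ x : X, Fin (Q x)) → Type
  | Sum.inl r => Option (Σ t, Fin (m r t))
  | Sum.inr (Sum.inl c) => Option (Σ t, Fin (m' c t))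
  | Sum.inr (Sum.inr q) => Σ t, Fin (mx q.1 t)

noncomputable instance [Fintype τ] (m : R → τ → ℕ) (m' : Cc → τ → ℕ) (mx : X → τ → ℕ)
    (Q : X → ℕ) : ∀ s, Fintype (KP m m' mx Q s)
  | Sum.inl r => inferInstanceAs (Fintype (Option (Σ t, Fin (m r t))))
  | Sum.inr (Sum.inl c) => inferInstanceAs (Fintype (Option (Σ t, Fin (m' c t))))
  | Sum.inr (Sum.inr q) => inferInstanceAs (Fintype (Σ t, Fin (mx q.1 t)))

theorem exists_pos_of_sum {τ : Type} [Fintype τ] {f : τ → ℕ} (h : 1 ≤ ∑ t, f t) :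
    Nonempty (Σ t, Fin (f t)) := by
  have : ∃ t ∈ univ, 0 < f t := by
    by_contra hcon
    push Not at hcon
    have := Finset.sum_eq_zero fun t ht => Nat.le_zero.1 (hcon t ht)
    omega
  obtain ⟨t, _, ht⟩ := this
  exact ⟨⟨t, ⟨0, ht⟩⟩⟩

theorem KP_nonempty [Fintype τ] (m : R → τ → ℕ) (m' : Cc → τ → ℕ) {mx : X → τ → ℕ} (Q : X → ℕ)
    (hmx : ∀ x, 1 ≤ ∑ t, mx x t) : ∀ s, Nonempty (KP m m' mx Q s)
  | Sum.inl r => ⟨(none : Option (Σ t, Fin (m r t)))⟩
  | Sum.inr (Sum.inl c) => ⟨(none : Option (Σ t, Fin (m' c t)))⟩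
  | Sum.inr (Sum.inr q) => exists_pos_of_sum (hmx q.1)

/-- the capacities -/
def pcap (J : τ → ℕ) (μ a s : ℕ) : τ ⊕ Fin 3 → ℕ
  | Sum.inl t => J t
  | Sum.inr 0 => μ
  | Sum.inr 1 => a
  | Sum.inr 2 => s

open Classical in
/-- the forms `α` -/
noncomputable def alP (co : R → Λ → Cc) (J : τ → ℕ) (μ a s : ℕ) (m : R → τ → ℕ) (m' : Cc → τ → ℕ)
    (mx : X → τ → ℕ) (Q : X → ℕ) (mu : (x : X) → Fin (Q x) → ℂ) (k₀ : (x : X) → Σ t, Fin (mx x t)) :
    (s' : R ⊕ Cc ⊕ (Σ x : X, Fin (Q x))) → KP m m' mx Q s' →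
      PCol Cc (τ ⊕ Fin 3) (pcap J μ a s) → ℂ ⊕ (R × Λ)
  | Sum.inl r => fun (k : Option (Σ t, Fin (m r t))) =>
      k.elim (py co r) fun q => pc (Sum.inl q.1) 1
  | Sum.inr (Sum.inl c) => fun (k : Option (Σ t, Fin (m' c t))) =>
      k.elim (pc (Sum.inr 2) 1) fun q => pc (Sum.inl q.1) 1
  | Sum.inr (Sum.inr p) => fun (q : Σ t, Fin (mx p.1 t)) =>
      pc (Sum.inl q.1) (if q = k₀ p.1 then mu p.1 p.2 else 1)

open Classical in
/-- the forms `β` -/
noncomputable def beP (J : τ → ℕ) (μ a s : ℕ) (m : R → τ → ℕ) (m' : Cc → τ → ℕ)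
    (mx : X → τ → ℕ) (Q : X → ℕ) (lam : (x : X) → Fin (Q x) → ℂ) (k₀ : (x : X) → Σ t, Fin (mx x t)) :
    (s' : R ⊕ Cc ⊕ (Σ x : X, Fin (Q x))) → KP m m' mx Q s' →
      PCol Cc (τ ⊕ Fin 3) (pcap J μ a s) → ℂ ⊕ (R × Λ)
  | Sum.inl r => fun (k : Option (Σ t, Fin (m r t))) =>
      k.elim (pc (Sum.inr 1) 1) fun _ => pc (Sum.inr 0) 1
  | Sum.inr (Sum.inl c) => fun (k : Option (Σ t, Fin (m' c t))) =>
      k.elim (px c) fun _ => pc (Sum.inr 0) 1
  | Sum.inr (Sum.inr p) => fun (q : Σ t, Fin (mx p.1 t)) =>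
      pc (Sum.inr 0) (if q = k₀ p.1 then lam p.1 p.2 else 1)

theorem lemmaP (R Λ Cc τ X : Type) [Fintype R] [Fintype Λ] [Fintype Cc] [Fintype τ] [Fintype X]
    (co : R → Λ → Cc) (hco : ∀ r, Function.Injective (co r)) (s M : ℕ) (hs : s ≤ Fintype.card R)
    (J : τ → ℕ) (m : R → τ → ℕ) (m' : Cc → τ → ℕ) (mx : X → τ → ℕ) (hmx : ∀ x, 1 ≤ ∑ t, mx x t)
    (Q : X → ℕ) (hQ : ∀ x, 1 ≤ Q x) (F : X → ℕ → ℂ) (hF : ∀ x, F x (Q x) ≠ 0)
    (hJ : ∑ t, J t ≤ ∑ r, ∑ t, m r t + ∑ c, ∑ t, m' c t + ∑ x, Q x * ∑ t, mx x t)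
    (hM : M = 3 * (∑ r, (∑ t, m r t + 1) + ∑ c, (∑ t, m' c t + 1) + ∑ x, Q x * ∑ t, mx x t)) :
    ∃ (e : Fin M → Fin M → ℂ ⊕ (R × Λ)) (C : ℂ), C ≠ 0 ∧
      ∀ (A : Type) [CommRing A] [Algebra ℂ A] (Y : R × Λ → A),
        (Matrix.of fun i j => (e i j).elim (algebraMap ℂ A) Y).permanent =
          algebraMap ℂ A C * ∑ S ∈ match' co s,
            algebraMap ℂ A (WP co J m m' mx Q F S) * ∏ q ∈ S, Y q := by
  classical
  obtain ⟨μ, hμ'⟩ := Nat.exists_eq_add_of_le hJ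
  have hμ : μ + ∑ t, J t = ∑ r, ∑ t, m r t + ∑ c, ∑ t, m' c t + ∑ x, Q x * ∑ t, mx x t := by
    rw [hμ', add_comm]
  choose lam mu hlm using fun x => exists_split (Q x) (hQ x) (F x) (hF x)
  choose k₀ _ using fun x => (⟨Classical.choice (exists_pos_of_sum (hmx x)), trivial⟩ :
    ∃ _ : (Σ t, Fin (mx x t)), True)
  have hKn : ∀ s, Nonempty (KP m m' mx Q s) := KP_nonempty m m' Q hmx
  set a := Fintype.card R - s with ha
  have hcK : ∑ s, Fintype.card (KP m m' mx Q s) =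
      ∑ r, (∑ t, m r t + 1) + (∑ c, (∑ t, m' c t + 1) + ∑ x, Q x * ∑ t, mx x t) := by
    rw [Fintype.sum_sum_type, Fintype.sum_sum_type]
    have e1 : ∀ r : R, Fintype.card (KP m m' mx Q (Sum.inl r)) = ∑ t, m r t + 1 := by
      intro r
      change Fintype.card (Option (Σ t, Fin (m r t))) = _
      simp
    have e2 : ∀ c : Cc, Fintype.card (KP m m' mx Q (Sum.inr (Sum.inl c))) = ∑ t, m' c t + 1 := by
      intro c
      change Fintype.card (Option (Σ t, Fin (m' c t))) = _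
      simp
    have e3 : ∀ q : (Σ x : X, Fin (Q x)), Fintype.card (KP m m' mx Q (Sum.inr (Sum.inr q))) =
        ∑ t, mx q.1 t := by
      intro q
      change Fintype.card (Σ t, Fin (mx q.1 t)) = _
      simp
    rw [Finset.sum_congr rfl fun r _ => e1 r, Finset.sum_congr rfl fun r _ => e2 r,
      Finset.sum_congr rfl fun r _ => e3 r, Fintype.sum_sigma]
    simp only [sum_const, card_univ, smul_eq_mul, Fintype.card_fin]
  have hcg : Fintype.card (PCol Cc (τ ⊕ Fin 3) (pcap J μ a s)) =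
      Fintype.card Cc + (∑ t, J t + (μ + a + s)) := by
    rw [Fintype.card_sum, Fintype.card_sigma]
    simp only [Fintype.card_fin]
    rw [Fintype.sum_sum_type, Fin.sum_univ_three]
    rfl
  have has : a + s = Fintype.card R := Nat.sub_add_cancel hs
  obtain ⟨e, C, hC, hperm⟩ := super (V := R × Λ) (κ := PCol Cc (τ ⊕ Fin 3) (pcap J μ a s))
    (ρ := Fin 0) (KP m m' mx Q) (alP co J μ a s m m' mx Q mu k₀)
    (beP J μ a s m m' mx Q lam k₀) (fun q => q.elim0) M (by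
      rw [hcK, hcg, Fintype.card_fin]
      simp only [Finset.sum_add_distrib, sum_const, card_univ, smul_eq_mul, mul_one]
      omega) (by
      rw [hcK, hM, Fintype.card_fin, ← add_assoc, add_zero])
  refine ⟨e, C * ((μ.factorial : ℂ) * (∏ t, ((J t).factorial : ℂ)) * (a.factorial : ℂ) *
    (s.factorial : ℂ)), ?_, ?_⟩
  · have h := fun k : ℕ => (Nat.cast_ne_zero (R := ℂ)).2 (Nat.factorial_ne_zero k)
    exact mul_ne_zero hC (mul_ne_zero (mul_ne_zero (mul_ne_zero (h _)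
      (Finset.prod_ne_zero_iff.2 fun t _ => h _)) (h _)) (h _))
  intro A _ _ Y
  rw [hperm A Y (algebraMap ℂ A ((μ.factorial : ℂ) * (∏ t, ((J t).factorial : ℂ)) *
    (a.factorial : ℂ) * (s.factorial : ℂ)) *
      ∑ S ∈ match' co s, algebraMap ℂ A (WP co J m m' mx Q F S) * ∏ q ∈ S, Y q) ?_]
  · rw [map_mul (algebraMap ℂ A) C]
    ring
  intro B _ _ x hx
  let _ : Algebra ℂ B := ((algebraMap A B).comp (algebraMap ℂ A)).toAlgebra
  have hal : ∀ z : ℂ, algebraMap ℂ B z = algebraMap A B (algebraMap ℂ A z) := fun z => rfl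
  let V : τ ⊕ Fin 3 → B := fun i => ∑ k, x (Sum.inr ⟨i, k⟩)
  have hVp : ∀ i, V i ^ (pcap J μ a s i) = ((pcap J μ a s i).factorial : B) *
      ∏ k, x (Sum.inr ⟨i, k⟩) := by
    intro i
    have := (sum_pow (x := fun k : Fin (pcap J μ a s i) => x (Sum.inr ⟨i, k⟩))
      (fun _ => hx _) univ).1
    rwa [card_univ, Fintype.card_fin] at this
  have hV0 : ∀ i, V i ^ (pcap J μ a s i + 1) = 0 := by
    intro i
    have := (sum_pow (x := fun k : Fin (pcap J μ a s i) => x (Sum.inr ⟨i, k⟩))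
      (fun _ => hx _) univ).2
    rwa [card_univ, Fintype.card_fin] at this
  have hcore := prodP_core co s μ hs J m m' mx Q F hμ
    (fun q => algebraMap A B (Y q)) (fun c => x (Sum.inl c)) (fun _ => hx _)
    (V (Sum.inr 0)) (hV0 (Sum.inr 0)) (fun t => V (Sum.inl t)) (fun t => hV0 (Sum.inl t))
    (V (Sum.inr 1)) (V (Sum.inr 2)) (hV0 (Sum.inr 1)) (hV0 (Sum.inr 2))
  have f1 : ∀ i, form Y x (pc i 1) = V i := by
    intro i
    rw [form_pc, map_one, map_one, one_mul]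
  have frow : ∀ r, ∏ k, form Y x (alP co J μ a s m m' mx Q mu k₀ (Sum.inl r) k) +
      ∏ k, form Y x (beP J μ a s m m' mx Q lam k₀ (Sum.inl r) k) =
      (∑ k, algebraMap A B (Y (r, k)) * x (Sum.inl (co r k))) *
        (∏ t, V (Sum.inl t) ^ m r t) + V (Sum.inr 1) * V (Sum.inr 0) ^ ∑ t, m r t := by
    intro r
    change ∏ k : Option (Σ t, Fin (m r t)), form Y x (k.elim (py co r) fun q => pc (Sum.inl q.1) 1) +
      ∏ k : Option (Σ t, Fin (m r t)), form Y x
        (k.elim (pc (Sum.inr 1) 1) fun _ => pc (Sum.inr 0) 1) = _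
    rw [Fintype.prod_option, Fintype.prod_option, Fintype.prod_sigma, Fintype.prod_sigma]
    simp only [Option.elim_none, Option.elim_some, f1, form_py co hco, prod_const, card_univ,
      Fintype.card_fin, prod_pow_eq_pow_sum]
  have fcol : ∀ c, ∏ k, form Y x (alP co J μ a s m m' mx Q mu k₀ (Sum.inr (Sum.inl c)) k) +
      ∏ k, form Y x (beP (R := R) (Λ := Λ) J μ a s m m' mx Q lam k₀ (Sum.inr (Sum.inl c)) k) =
      V (Sum.inr 2) * (∏ t, V (Sum.inl t) ^ m' c t) +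
        x (Sum.inl c) * V (Sum.inr 0) ^ ∑ t, m' c t := by
    intro c
    change ∏ k : Option (Σ t, Fin (m' c t)), form Y x
        (k.elim (pc (Sum.inr 2) 1) fun q => pc (Sum.inl q.1) 1) +
      ∏ k : Option (Σ t, Fin (m' c t)), form Y x (k.elim (px c) fun _ => pc (Sum.inr 0) 1) = _
    rw [Fintype.prod_option, Fintype.prod_option, Fintype.prod_sigma, Fintype.prod_sigma]
    simp only [Option.elim_none, Option.elim_some, f1, form_px, prod_const, card_univ,
      Fintype.card_fin, prod_pow_eq_pow_sum]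
  have fx : ∀ p : (Σ x : X, Fin (Q x)),
      ∏ k, form Y x (alP co J μ a s m m' mx Q mu k₀ (Sum.inr (Sum.inr p)) k) +
      ∏ k, form Y x (beP (R := R) (Λ := Λ) J μ a s m m' mx Q lam k₀ (Sum.inr (Sum.inr p)) k) =
      algebraMap ℂ B (lam p.1 p.2) * V (Sum.inr 0) ^ (∑ t, mx p.1 t) +
        algebraMap ℂ B (mu p.1 p.2) * ∏ t, V (Sum.inl t) ^ mx p.1 t := by
    intro p
    change ∏ q : (Σ t, Fin (mx p.1 t)), form Y x
        (pc (Sum.inl q.1) (if q = k₀ p.1 then mu p.1 p.2 else 1)) +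
      ∏ q : (Σ t, Fin (mx p.1 t)), form Y x
        (pc (Sum.inr 0) (if q = k₀ p.1 then lam p.1 p.2 else 1)) = _
    have e1 : ∀ (z : ℂ) (W : (Σ t, Fin (mx p.1 t)) → τ ⊕ Fin 3),
        ∏ q : (Σ t, Fin (mx p.1 t)), form Y x (pc (W q) (if q = k₀ p.1 then z else 1)) =
          algebraMap ℂ B z * ∏ q, V (W q) := by
      intro z W
      have e2 : ∀ q, form Y x (pc (W q) (if q = k₀ p.1 then z else 1)) =
          (if q = k₀ p.1 then algebraMap ℂ B z else 1) * V (W q) := by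
        intro q
        rw [form_pc]
        split_ifs
        · rfl
        · rw [map_one, map_one]
      rw [prod_congr rfl fun q _ => e2 q, prod_mul_distrib, Finset.prod_ite_eq' univ,
        if_pos (mem_univ _)]
    rw [e1 (mu p.1 p.2) (fun q => Sum.inl q.1), e1 (lam p.1 p.2) (fun _ => Sum.inr 0), add_comm,
      Fintype.prod_sigma, Fintype.prod_sigma]
    simp only [prod_const, card_univ, Fintype.card_fin, prod_pow_eq_pow_sum]
  have fxx : ∏ p : (Σ x : X, Fin (Q x)), (algebraMap ℂ B (lam p.1 p.2) *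
      V (Sum.inr 0) ^ (∑ t, mx p.1 t) + algebraMap ℂ B (mu p.1 p.2) *
        ∏ t, V (Sum.inl t) ^ mx p.1 t) =
      ∏ x, ∑ K ∈ range (Q x + 1), algebraMap ℂ B (F x K) *
        (V (Sum.inr 0) ^ ∑ t, mx x t) ^ (Q x - K) * (∏ t, V (Sum.inl t) ^ mx x t) ^ K := by
    rw [Fintype.prod_sigma]
    refine prod_congr rfl fun x' _ => ?_
    exact hlm x' B (algebraMap ℂ B) (V (Sum.inr 0) ^ ∑ t, mx x' t) (∏ t, V (Sum.inl t) ^ mx x' t)
  rw [Fintype.prod_sum_type, Fintype.prod_sum_type, prod_congr rfl fun r _ => frow r,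
    prod_congr rfl fun c _ => fcol c, prod_congr rfl fun p _ => fx p, fxx, ← mul_assoc, hcore,
    Fin.prod_univ_zero, mul_one]
  have hx2 : ∏ c, x c = (∏ c, x (Sum.inl c)) * ((∏ t, ∏ k, x (Sum.inr ⟨Sum.inl t, k⟩)) *
      ((∏ k, x (Sum.inr ⟨Sum.inr 0, k⟩)) * (∏ k, x (Sum.inr ⟨Sum.inr 1, k⟩)) *
        ∏ k, x (Sum.inr ⟨Sum.inr 2, k⟩))) := by
    rw [Fintype.prod_sum_type, Fintype.prod_sigma, Fintype.prod_sum_type, Fin.prod_univ_three]
  have h0 := hVp (Sum.inr 0)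
  have h1 := hVp (Sum.inr 1)
  have h2 := hVp (Sum.inr 2)
  have h3 : ∏ t, V (Sum.inl t) ^ J t = (∏ t, ((J t).factorial : B)) *
      ∏ t, ∏ k, x (Sum.inr ⟨Sum.inl t, k⟩) := by
    rw [← prod_mul_distrib]
    exact prod_congr rfl fun t _ => hVp (Sum.inl t)
  change V (Sum.inr 0) ^ μ = (μ.factorial : B) * _ at h0
  change V (Sum.inr 1) ^ a = (a.factorial : B) * _ at h1
  change V (Sum.inr 2) ^ s = (s.factorial : B) * _ at h2
  rw [hx2, h0, h1, h2, h3]
  simp only [map_mul, map_sum, map_prod, map_natCast, hal]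
  ring

end Main

end Helper16.N3
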