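import Pool.Agent.Helper16.N3.Proj

/-!
# Lemma P: a permanent projects onto a sum of matchings weighted by a coefficient extraction
-/

set_option autoImplicit false
set_option linter.unusedSectionVars false

namespace Helper16.N3

open Finset Helper16.SQG

/-- The weight of a set of slots. -/
noncomputable def WP {R Λ Cc τ X : Type} [Fintype X] (co : R → Λ → Cc) (J : τ → ℕ)
    (m : R → τ → ℕ) (m' : Cc → τ → ℕ) (mx : X → τ → ℕ) (Q : X → ℕ) (F : X → ℕ → ℂ)
    (S : Finset (R × Λ)) : ℂ :=
  open Classical in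
  ∑ φ ∈ (Fintype.piFinset fun x => range (Q x + 1)).filter
      (fun φ : X → ℕ => ∀ t, ∑ q ∈ S, (m q.1 t + m' (co q.1 q.2) t) + ∑ x, φ x * mx x t = J t),
    ∏ x, F x (φ x)

section Core

open Classical in
/-- Expansion of the product over the rows. -/
theorem prod_option_expand' {B R Λ : Type} [CommRing B] [Fintype R] [Fintype Λ] (W : R → B)
    (t : R × Λ → B) :
    ∏ r, (W r + ∑ k, t (r, k)) =
      ∑ S ∈ (univ : Finset (Finset (R × Λ))).filter
          (fun S : Finset (R × Λ) => Set.InjOn Prod.fst (S : Set (R × Λ))),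
        (∏ r ∈ univ \ S.image Prod.fst, W r) * ∏ q ∈ S, t q := by
  have h1 : ∀ r : R, W r + ∑ k, t (r, k) = ∑ o : Option Λ, o.elim (W r) fun k => t (r, k) := by
    intro r
    rw [Fintype.sum_option]
    rfl
  rw [prod_congr rfl fun r _ => h1 r, Finset.prod_univ_sum, Fintype.piFinset_univ]
  refine Finset.sum_nbij (fun p => univ.filter fun q : R × Λ => p q.1 = some q.2) ?_ ?_ ?_ ?_
  · intro p _
    rw [mem_filter]
    refine ⟨mem_univ _, ?_⟩
    rintro ⟨r, k⟩ hq ⟨r', k'⟩ hq' h
    simp only [coe_filter, mem_univ, true_and, Set.mem_ofPred_eq] at hq hq' h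
    subst h
    rw [hq] at hq'
    rw [Option.some_injective _ hq']
  · intro p _ p' _ h
    funext r
    have h2 : ∀ k, p r = some k ↔ p' r = some k := by
      intro k
      have := Finset.ext_iff.1 h (r, k)
      simpa using this
    exact Option.ext fun k => h2 k
  · intro S hS
    have hS' : Set.InjOn Prod.fst (S : Set (R × Λ)) := by
      have := (mem_filter.1 (mem_coe.1 hS)).2
      exact this
    refine ⟨fun r => if h : ∃ k, (r, k) ∈ S then some h.choose else none, by simp, ?_⟩
    ext ⟨r, k⟩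
    rw [mem_filter]
    simp only [mem_univ, true_and]
    constructor
    · intro h
      by_cases h3 : ∃ k, (r, k) ∈ S
      · rw [dif_pos h3] at h
        rw [← Option.some_injective _ h]
        exact h3.choose_spec
      · rw [dif_neg h3] at h
        exact absurd h (by simp)
    · intro h
      have h3 : ∃ k, (r, k) ∈ S := ⟨k, h⟩
      rw [dif_pos h3]
      have h4 := hS' (mem_coe.2 h3.choose_spec) (mem_coe.2 h) rfl
      rw [(Prod.mk.inj h4).2]
  · intro p _
    have e1 : ∏ q ∈ univ.filter (fun q : R × Λ => p q.1 = some q.2), t q =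
        ∏ r, (p r).elim 1 fun k => t (r, k) := by
      rw [prod_filter, Fintype.prod_prod_type]
      refine prod_congr rfl fun r _ => ?_
      rcases hp : p r with _ | k
      · simp [hp]
      · simp [hp]
    have e2 : univ \ (univ.filter (fun q : R × Λ => p q.1 = some q.2)).image Prod.fst =
        univ.filter fun r : R => p r = none := by
      ext r
      rw [mem_sdiff, mem_image, mem_filter]
      simp only [mem_univ, true_and, mem_filter]
      rcases hp : p r with _ | k
      · simp only [iff_true]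
        rintro ⟨q, hq, rfl⟩
        rw [hp] at hq
        exact absurd hq (by simp)
      · simp only [reduceCtorEq, iff_false, not_not]
        exact ⟨(r, k), hp, rfl⟩
    have e4 : ∏ r, (p r).elim (W r) (fun _ => (1 : B)) =
        ∏ r ∈ univ.filter (fun r : R => p r = none), W r := by
      rw [prod_filter]
      refine prod_congr rfl fun r _ => ?_
      rcases hp : p r with _ | k
      · simp
      · simp
    rw [e1, e2, ← e4, ← prod_mul_distrib]
    refine prod_congr rfl fun r _ => ?_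
    rcases hp : p r with _ | k
    · simp
    · simp

theorem prodP_core {B R Λ Cc τ X : Type} [CommRing B] [Algebra ℂ B] [Fintype R] [Fintype Λ]
    [Fintype Cc] [Fintype τ] [Fintype X]
    (co : R → Λ → Cc) (s μ : ℕ) (hs : s ≤ Fintype.card R)
    (J : τ → ℕ) (m : R → τ → ℕ) (m' : Cc → τ → ℕ) (mx : X → τ → ℕ) (Q : X → ℕ) (F : X → ℕ → ℂ)
    (hμ : μ + ∑ t, J t = ∑ r, ∑ t, m r t + ∑ c, ∑ t, m' c t + ∑ x, Q x * ∑ t, mx x t)
    (y : R × Λ → B) (xc : Cc → B) (hxc : ∀ c, xc c * xc c = 0)
    (w : B) (hw : w ^ (μ + 1) = 0) (T : τ → B) (hT : ∀ t, T t ^ (J t + 1) = 0)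
    (u v : B) (hu : u ^ (Fintype.card R - s + 1) = 0) (hv : v ^ (s + 1) = 0) :
    (∏ r, ((∑ k, y (r, k) * xc (co r k)) * (∏ t, T t ^ m r t) + u * w ^ ∑ t, m r t)) *
      (∏ c, (v * (∏ t, T t ^ m' c t) + xc c * w ^ ∑ t, m' c t)) *
      (∏ x, ∑ K ∈ range (Q x + 1), algebraMap ℂ B (F x K) * (w ^ ∑ t, mx x t) ^ (Q x - K) *
        (∏ t, T t ^ mx x t) ^ K) =
    (∑ S ∈ match' co s, algebraMap ℂ B (WP co J m m' mx Q F S) * ∏ q ∈ S, y q) *
      ((∏ c, xc c) * w ^ μ * (∏ t, T t ^ J t) * u ^ (Fintype.card R - s) * v ^ s) := by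
  classical
  have hw' : ∀ k, μ < k → w ^ k = 0 := by
    intro k hk
    rw [show k = (μ + 1) + (k - μ - 1) by omega, pow_add, hw, zero_mul]
  have hu' : ∀ k, Fintype.card R - s < k → u ^ k = 0 := by
    intro k hk
    rw [show k = (Fintype.card R - s + 1) + (k - (Fintype.card R - s) - 1) by omega, pow_add, hu,
      zero_mul]
  have hv' : ∀ k, s < k → v ^ k = 0 := by
    intro k hk
    rw [show k = (s + 1) + (k - s - 1) by omega, pow_add, hv, zero_mul]
  have hT' : ∀ t k, J t < k → T t ^ k = 0 := by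
    intro t k hk
    rw [show k = (J t + 1) + (k - J t - 1) by omega, pow_add, hT, zero_mul]
  set SS := (univ : Finset (Finset (R × Λ))).filter
    (fun S : Finset (R × Λ) => Set.InjOn Prod.fst (S : Set (R × Λ))) with hSS
  have hSR : ∀ S ∈ SS, S.card ≤ Fintype.card R := by
    intro S hS
    rw [← card_univ]
    exact card_le_card_of_injOn Prod.fst (fun _ _ => mem_univ _) (mem_filter.1 hS).2
  set Φ := Fintype.piFinset (fun x => range (Q x + 1)) with hΦ
  set ex : Finset (R × Λ) → Finset Cc → (X → ℕ) → τ → ℕ := fun S E φ t =>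
    ∑ q ∈ S, m q.1 t + ∑ c ∈ E, m' c t + ∑ x, φ x * mx x t with hex
  set ω : Finset (R × Λ) → Finset Cc → (X → ℕ) → ℕ := fun S E φ =>
    ∑ r ∈ univ \ S.image Prod.fst, ∑ t, m r t + ∑ c ∈ univ \ E, ∑ t, m' c t +
      ∑ x, (∑ t, mx x t) * (Q x - φ x) with hω
  set G : Finset (R × Λ) → Finset Cc → (X → ℕ) → B := fun S E φ =>
    algebraMap ℂ B (∏ x, F x (φ x)) * (∏ q ∈ S, y q) *
      (((∏ q ∈ S, xc (co q.1 q.2)) * ∏ c ∈ univ \ E, xc c) *
        u ^ (Fintype.card R - S.card) * v ^ E.card * (∏ t, T t ^ ex S E φ t) * w ^ ω S E φ) with hG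
  -- total degree
  have hdeg : ∀ S ∈ SS, ∀ (E : Finset Cc), ∀ φ ∈ Φ, ω S E φ + ∑ t, ex S E φ t = μ + ∑ t, J t := by
    intro S hS E φ hφ
    have h1 : ∑ r ∈ univ \ S.image Prod.fst, ∑ t, m r t + ∑ q ∈ S, ∑ t, m q.1 t =
        ∑ r, ∑ t, m r t := by
      have e := Finset.sum_image (s := S) (g := Prod.fst) (f := fun r : R => ∑ t, m r t)
        (mem_filter.1 hS).2
      rw [← e]
      exact sum_sdiff (subset_univ _)
    have h2 : ∑ c ∈ univ \ E, ∑ t, m' c t + ∑ c ∈ E, ∑ t, m' c t = ∑ c, ∑ t, m' c t :=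
      sum_sdiff (subset_univ _)
    have h3 : ∑ x, (∑ t, mx x t) * (Q x - φ x) + ∑ x, φ x * ∑ t, mx x t =
        ∑ x, Q x * ∑ t, mx x t := by
      rw [← Finset.sum_add_distrib]
      refine Finset.sum_congr rfl fun x _ => ?_
      have hx : φ x ≤ Q x := by
        have := Fintype.mem_piFinset.1 hφ x
        rw [mem_range] at this
        omega
      rw [mul_comm (φ x), ← Nat.mul_add, Nat.sub_add_cancel hx, mul_comm]
    have h4 : ∑ t, ex S E φ t = ∑ q ∈ S, ∑ t, m q.1 t + ∑ c ∈ E, ∑ t, m' c t +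
        ∑ x, φ x * ∑ t, mx x t := by
      simp only [hex]
      rw [Finset.sum_add_distrib, Finset.sum_add_distrib, sum_comm, sum_comm (t := E),
        sum_comm (s := univ) (t := univ) (f := fun t x => φ x * mx x t)]
      simp only [mul_sum]
    rw [hμ, h4, ← h1, ← h2, ← h3]
    simp only [hω]
    ring
  -- expansion
  have hexp : (∏ r, ((∑ k, y (r, k) * xc (co r k)) * (∏ t, T t ^ m r t) + u * w ^ ∑ t, m r t)) *
      (∏ c, (v * (∏ t, T t ^ m' c t) + xc c * w ^ ∑ t, m' c t)) *
      (∏ x, ∑ K ∈ range (Q x + 1), algebraMap ℂ B (F x K) * (w ^ ∑ t, mx x t) ^ (Q x - K) *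
        (∏ t, T t ^ mx x t) ^ K) = ∑ S ∈ SS, ∑ E ∈ (univ : Finset Cc).powerset, ∑ φ ∈ Φ, G S E φ := by
    have hrow : ∏ r, ((∑ k, y (r, k) * xc (co r k)) * (∏ t, T t ^ m r t) + u * w ^ ∑ t, m r t) =
        ∑ S ∈ SS, (∏ r ∈ univ \ S.image Prod.fst, (u * w ^ ∑ t, m r t)) *
          ∏ q ∈ S, (y q * xc (co q.1 q.2) * ∏ t, T t ^ m q.1 t) := by
      rw [← prod_option_expand']
      refine prod_congr rfl fun r _ => ?_
      rw [sum_mul, add_comm]
    rw [hrow, Finset.prod_add, Finset.prod_univ_sum, sum_mul_sum, sum_mul]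
    refine Finset.sum_congr rfl fun S hS => ?_
    rw [sum_mul]
    refine Finset.sum_congr rfl fun E _ => ?_
    rw [mul_sum]
    refine Finset.sum_congr rfl fun φ _ => ?_
    have e1 : ∏ r ∈ univ \ S.image Prod.fst, (u * w ^ ∑ t, m r t) =
        u ^ (Fintype.card R - S.card) * w ^ ∑ r ∈ univ \ S.image Prod.fst, ∑ t, m r t := by
      rw [prod_mul_distrib, prod_const, prod_pow_eq_pow_sum, card_sdiff_of_subset (subset_univ _),
        card_univ, card_image_of_injOn (mem_filter.1 hS).2]
    have e2 : ∏ q ∈ S, (y q * xc (co q.1 q.2) * ∏ t, T t ^ m q.1 t) =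
        (∏ q ∈ S, y q) * (∏ q ∈ S, xc (co q.1 q.2)) * ∏ t, T t ^ ∑ q ∈ S, m q.1 t := by
      rw [prod_mul_distrib, prod_mul_distrib, prod_comm]
      simp only [prod_pow_eq_pow_sum]
    have e3 : ∏ c ∈ E, (v * ∏ t, T t ^ m' c t) = v ^ E.card * ∏ t, T t ^ ∑ c ∈ E, m' c t := by
      rw [prod_mul_distrib, prod_const, prod_comm]
      simp only [prod_pow_eq_pow_sum]
    have e4 : ∏ c ∈ univ \ E, (xc c * w ^ ∑ t, m' c t) =
        (∏ c ∈ univ \ E, xc c) * w ^ ∑ c ∈ univ \ E, ∑ t, m' c t := by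
      rw [prod_mul_distrib, prod_pow_eq_pow_sum]
    have e5 : ∏ x, (algebraMap ℂ B (F x (φ x)) * (w ^ ∑ t, mx x t) ^ (Q x - φ x) *
        (∏ t, T t ^ mx x t) ^ φ x) = algebraMap ℂ B (∏ x, F x (φ x)) *
          w ^ (∑ x, (∑ t, mx x t) * (Q x - φ x)) * ∏ t, T t ^ ∑ x, φ x * mx x t := by
      rw [prod_mul_distrib, prod_mul_distrib, map_prod]
      congr 1
      · simp only [← pow_mul, prod_pow_eq_pow_sum]
      · simp only [← prod_pow, ← pow_mul]
        rw [prod_comm]
        simp only [prod_pow_eq_pow_sum, mul_comm]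
    rw [e1, e2, e3, e4, e5]
    simp only [hG, hex, hω, pow_add, prod_mul_distrib]
    ring
  -- vanishing
  have hvan : ∀ S ∈ SS, ∀ (E : Finset Cc), ∀ φ ∈ Φ,
      ¬ (S.card = s ∧ E.card = s ∧ ∀ t, ex S E φ t = J t) → G S E φ = 0 := by
    intro S hS E φ hφ hne
    have hS1 := hSR S hS
    have hE1 : E.card ≤ Fintype.card Cc := card_le_univ E
    simp only [hG]
    by_cases c1 : S.card < s
    · rw [hu' _ (show Fintype.card R - s < Fintype.card R - S.card by omega)]
      ring
    by_cases c2 : s < E.card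
    · rw [hv' _ c2]
      ring
    by_cases c3 : E.card < S.card
    · have h1 : (∏ q ∈ S, xc (co q.1 q.2)) * ∏ c ∈ univ \ E, xc c = 0 := by
        apply Deg_eq_zero (x := xc) (S := univ) (k := S.card + (univ \ E).card)
        · rw [card_sdiff_of_subset (subset_univ _), card_univ]
          omega
        · exact mul_mem_Deg hxc (prod_mem_Deg hxc S _ fun q _ => x_mem_Deg (mem_univ _))
            (prod_mem_Deg hxc _ _ fun q _ => x_mem_Deg (mem_univ _))
      rw [h1]
      ring
    by_cases c4 : ∃ t, J t < ex S E φ t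
    · obtain ⟨t, ht⟩ := c4
      have h1 : ∏ t, T t ^ ex S E φ t = 0 := Finset.prod_eq_zero (mem_univ t) (hT' t _ ht)
      rw [h1]
      ring
    push Not at c4
    by_cases c5 : μ < ω S E φ
    · rw [hw' _ c5]
      ring
    exfalso
    apply hne
    refine ⟨by omega, by omega, fun t => ?_⟩
    have h1 := hdeg S hS E φ hφ
    by_contra hcon
    have h2 : ∑ t, ex S E φ t < ∑ t, J t :=
      Finset.sum_lt_sum (fun t _ => c4 t) ⟨t, mem_univ t, lt_of_le_of_ne (c4 t) hcon⟩
    omega
  rw [hexp, sum_mul]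
  symm
  have hsub : match' co s ⊆ SS := by
    intro S hS
    rw [hSS, mem_filter]
    unfold match' at hS
    rw [mem_filter] at hS
    exact ⟨mem_univ _, hS.2.1⟩
  refine Finset.sum_subset_zero_on_sdiff hsub ?_ ?_
  · intro S hS
    rw [mem_sdiff] at hS
    refine Finset.sum_eq_zero fun E _ => Finset.sum_eq_zero fun φ hφ => ?_
    by_cases hc : S.card = s ∧ E.card = s ∧ ∀ t, ex S E φ t = J t
    · have hS1 := (mem_filter.1 hS.1).2
      have hni : ¬ Set.InjOn (fun q : R × Λ => co q.1 q.2) (S : Set (R × Λ)) := by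
        intro hi
        apply hS.2
        unfold match'
        rw [mem_filter, mem_powersetCard]
        exact ⟨⟨subset_univ _, hc.1⟩, hS1, hi⟩
      have h1 : ∏ q ∈ S, xc (co q.1 q.2) = 0 := by
        unfold Set.InjOn at hni
        push Not at hni
        obtain ⟨q, hq, q', hq', he, hne⟩ := hni
        rw [← mul_prod_erase S _ (mem_coe.1 hq),
          ← mul_prod_erase (S.erase q) _ (mem_erase.2 ⟨hne.symm, mem_coe.1 hq'⟩)]
        change co q.1 q.2 = co q'.1 q'.2 at he
        rw [he, ← mul_assoc, hxc, zero_mul]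
      simp only [hG]
      rw [h1]
      ring
    · exact hvan S hS.1 E φ hφ hc
  · intro S hS
    have hS0 := hsub hS
    unfold match' at hS
    rw [mem_filter, mem_powersetCard] at hS
    obtain ⟨⟨_, hcard⟩, hi1, hi2⟩ := hS
    have hcim : (S.image fun q : R × Λ => co q.1 q.2).card = s := by
      rw [card_image_of_injOn hi2, hcard]
    have hxim : ∏ q ∈ S, xc (co q.1 q.2) = ∏ c ∈ S.image (fun q : R × Λ => co q.1 q.2), xc c := by
      rw [prod_image hi2]
    rw [Finset.sum_eq_single (S.image fun q : R × Λ => co q.1 q.2)]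
    · set E := S.image fun q : R × Λ => co q.1 q.2 with hE
      have hScard := hSR S hS0
      have e1 : (∏ q ∈ S, xc (co q.1 q.2)) * ∏ c ∈ univ \ E, xc c = ∏ c, xc c := by
        rw [hxim, mul_comm]
        exact prod_sdiff (subset_univ E)
      have e2 : ∀ φ t, ex S E φ t =
          ∑ q ∈ S, (m q.1 t + m' (co q.1 q.2) t) + ∑ x, φ x * mx x t := by
        intro φ t
        simp only [hex]
        rw [hE, Finset.sum_image hi2, Finset.sum_add_distrib]
      have hW : WP co J m m' mx Q F S = ∑ φ ∈ Φ.filter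
          (fun φ : X → ℕ => ∀ t, ∑ q ∈ S, (m q.1 t + m' (co q.1 q.2) t) + ∑ x, φ x * mx x t = J t),
          ∏ x, F x (φ x) := by
        unfold WP
        rw [hΦ]
        congr!
      rw [hW, map_sum, sum_mul, sum_mul]
      refine Finset.sum_subset_zero_on_sdiff (filter_subset _ _) ?_ ?_
      · intro φ hφ
        rw [mem_sdiff, mem_filter, not_and] at hφ
        refine hvan S hS0 E φ hφ.1 fun hc => hφ.2 hφ.1 fun t => ?_
        rw [← e2]
        exact hc.2.2 t
      · intro φ hφ
        rw [mem_filter] at hφ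
        have e3 : ∀ t, ex S E φ t = J t := fun t => (e2 φ t).trans (hφ.2 t)
        have e4 : ω S E φ = μ := by
          have := hdeg S hS0 E φ hφ.1
          have e5 : ∑ t, ex S E φ t = ∑ t, J t := Finset.sum_congr rfl fun t _ => e3 t
          omega
        simp only [hG]
        rw [e1, e4, prod_congr rfl fun t _ => congrArg (fun k => T t ^ k) (e3 t), hcim, hcard]
        ring
    · intro E _ hE
      refine Finset.sum_eq_zero fun φ hφ => ?_
      by_cases hc : S.card = s ∧ E.card = s ∧ ∀ t, ex S E φ t = J t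
      · have h1 : (∏ q ∈ S, xc (co q.1 q.2)) * ∏ c ∈ univ \ E, xc c = 0 := by
          rw [hxim]
          have : ∃ c ∈ S.image (fun q : R × Λ => co q.1 q.2), c ∉ E := by
            by_contra hcon
            push Not at hcon
            exact hE (Finset.eq_of_subset_of_card_le hcon (by rw [hcim, hc.2.1])).symm
          obtain ⟨c, hc1, hc2⟩ := this
          rw [← mul_prod_erase _ xc hc1,
            ← mul_prod_erase (univ \ E) xc (mem_sdiff.2 ⟨mem_univ _, hc2⟩)]
          linear_combination ((∏ c ∈ (S.image (fun q : R × Λ => co q.1 q.2)).erase c, xc c) *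
            ∏ c ∈ (univ \ E).erase c, xc c) * hxc c
        simp only [hG]
        rw [h1]
        ring
      · exact hvan S hS0 E φ hφ hc
    · intro hE
      exact absurd (mem_powerset.2 (subset_univ _)) hE

end Core

end Helper16.N3
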