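import Mathlib

/-!
# N3: binary forms over the complex numbers are products of linear forms
-/

set_option autoImplicit false

namespace Helper16.N3

open Finset Polynomial

theorem hom_prod (n : ℕ) (r : Fin n → ℂ) (B : Type) [CommRing B] (φ : ℂ →+* B) (g h : B) :
    ∏ v, (h - φ (r v) * g) = ∑ K ∈ range (n + 1),
      φ ((∏ v, (X - C (r v)) : ℂ[X]).coeff K) * g ^ (n - K) * h ^ K := by
  induction n with
  | zero => simp
  | succ n ih =>
    rw [Fin.prod_univ_succ, ih fun v => r v.succ, Fin.prod_univ_succ]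
    set p : ℂ[X] := ∏ v : Fin n, (X - C (r v.succ)) with hp
    have hdeg : p.coeff (n + 1) = 0 := by
      apply coeff_eq_zero_of_natDegree_lt
      rw [hp, natDegree_prod_of_monic _ _ fun v _ => monic_X_sub_C _]
      simp
    have e1 : ∑ K ∈ range (n + 1 + 1), φ (((X - C (r 0)) * p).coeff K) * g ^ (n + 1 - K) * h ^ K =
        h * ∑ K ∈ range (n + 1), φ (p.coeff K) * g ^ (n - K) * h ^ K -
          φ (r 0) * ∑ K ∈ range (n + 1 + 1), φ (p.coeff K) * g ^ (n + 1 - K) * h ^ K := by
      rw [Finset.sum_range_succ' _ (n + 1), Finset.sum_range_succ' _ (n + 1), mul_add, mul_sum, mul_sum,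
        sub_add_eq_sub_sub, ← Finset.sum_sub_distrib]
      have e2 : ∀ K ∈ range (n + 1), φ (((X - C (r 0)) * p).coeff (K + 1)) * g ^ (n + 1 - (K + 1)) *
          h ^ (K + 1) = h * (φ (p.coeff K) * g ^ (n - K) * h ^ K) -
            φ (r 0) * (φ (p.coeff (K + 1)) * g ^ (n + 1 - (K + 1)) * h ^ (K + 1)) := by
        intro K _
        rw [sub_mul, coeff_sub, coeff_X_mul, coeff_C_mul, map_sub, map_mul, Nat.add_sub_add_right,
          pow_succ]
        ring
      rw [Finset.sum_congr rfl e2, sub_mul, coeff_sub, coeff_C_mul]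
      simp only [mul_coeff_zero, coeff_X_zero, zero_mul, zero_sub, map_neg, map_mul]
      ring
    have e3 : ∑ K ∈ range (n + 1 + 1), φ (p.coeff K) * g ^ (n + 1 - K) * h ^ K =
        g * ∑ K ∈ range (n + 1), φ (p.coeff K) * g ^ (n - K) * h ^ K := by
      rw [Finset.sum_range_succ, hdeg, map_zero, zero_mul, zero_mul, add_zero, mul_sum]
      refine Finset.sum_congr rfl fun K hK => ?_
      rw [mem_range] at hK
      rw [show n + 1 - K = (n - K) + 1 by omega, pow_succ]
      ring
    rw [e1, e3]
    ring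

theorem exists_split (n : ℕ) (hn : 1 ≤ n) (F : ℕ → ℂ) (hF : F n ≠ 0) : ∃ lam mu : Fin n → ℂ,
    ∀ (B : Type) [CommRing B] (φ : ℂ →+* B) (g h : B),
      ∏ v, (φ (lam v) * g + φ (mu v) * h) =
        ∑ K ∈ range (n + 1), φ (F K) * g ^ (n - K) * h ^ K := by
  set q : ℂ[X] := ∑ K ∈ range (n + 1), monomial K (F K) with hq
  have hqc : ∀ K ≤ n, q.coeff K = F K := by
    intro K hK
    rw [hq, finsetSum_coeff, Finset.sum_eq_single K]
    · rw [coeff_monomial, if_pos rfl]
    · intro K' _ hne
      rw [coeff_monomial, if_neg hne]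
    · intro h
      exact absurd (mem_range.2 (by omega)) h
  have hqd : q.natDegree = n := by
    apply natDegree_eq_of_le_of_coeff_ne_zero
    · rw [hq]
      refine natDegree_sum_le_of_forall_le _ _ fun K hK => ?_
      rw [mem_range] at hK
      exact (natDegree_monomial_le _).trans (by omega)
    · rw [hqc n le_rfl]
      exact hF
  have hroots : Multiset.card q.roots = q.natDegree := splits_iff_card_roots.1 (IsAlgClosed.splits q)
  have hfac := C_leadingCoeff_mul_prod_multiset_X_sub_C hroots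
  obtain ⟨l, hl⟩ := Quot.exists_rep q.roots
  have hlen : l.length = n := by
    rw [← hqd, ← hroots, ← hl]
    rfl
  obtain ⟨c, hc⟩ := IsAlgClosed.exists_pow_nat_eq (F n) (show 0 < n by omega)
  let r : Fin n → ℂ := fun v => l.get (Fin.cast hlen.symm v)
  have hprod : (∏ v, (X - C (r v)) : ℂ[X]) = (q.roots.map fun a => X - C a).prod := by
    rw [← hl]
    have e1 : (∏ v, (X - C (r v)) : ℂ[X]) = ∏ v : Fin l.length, (X - C (l.get v)) :=
      Fintype.prod_equiv (finCongr hlen.symm) _ _ fun v => rfl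
    rw [e1]
    exact Fin.prod_univ_fun_getElem l fun a => X - C a
  refine ⟨fun v => -(c * r v), fun _ => c, fun B _ φ g h => ?_⟩
  have e : ∀ v, φ (-(c * r v)) * g + φ c * h = φ c * (h - φ (r v) * g) := by
    intro v
    rw [map_neg, map_mul]
    ring
  rw [prod_congr rfl fun v _ => e v, prod_mul_distrib, prod_const, card_univ, Fintype.card_fin,
    ← map_pow, hc, hom_prod, mul_sum]
  refine Finset.sum_congr rfl fun K hK => ?_
  rw [mem_range] at hK
  have hlead : q.leadingCoeff = F n := by
    rw [leadingCoeff, hqd, hqc n le_rfl]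
  rw [← hprod, hlead] at hfac
  have e2 : F n * (∏ v, (X - C (r v)) : ℂ[X]).coeff K = F K := by
    rw [← coeff_C_mul, hfac, hqc K (by omega)]
  rw [← e2, map_mul]
  ring

end Helper16.N3
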