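import Pool.Agent.Helper16.N3.Top
import Pool.Agent.Helper16.N3.Split

/-!
# N3: a permanent projects onto a weighted sum of matchings
-/

set_option autoImplicit false
set_option linter.unusedSectionVars false

namespace Helper16.N3

open Finset Helper16.SQG

section Forms

variable {R Λ Cc V : Type} {L n μ : ℕ}

/-- the global columns -/
abbrev GCol (Cc : Type) (L n μ : ℕ) : Type := Cc ⊕ Fin μ ⊕ (Fin L × Fin n) ⊕ (Fin L × Fin n)

/-- the class `w` -/
noncomputable def vw : GCol Cc L n μ → ℂ ⊕ V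
  | Sum.inl _ => Sum.inl 0
  | Sum.inr (Sum.inl _) => Sum.inl 1
  | Sum.inr (Sum.inr _) => Sum.inl 0

/-- a column -/
noncomputable def vx [DecidableEq Cc] (c : Cc) : GCol Cc L n μ → ℂ ⊕ V
  | Sum.inl c' => Sum.inl (if c' = c then 1 else 0)
  | Sum.inr _ => Sum.inl 0

/-- the classes `g` and `h` -/
noncomputable def vgh (lam mu : ℂ) (j : Fin L) : GCol Cc L n μ → ℂ ⊕ V
  | Sum.inl _ => Sum.inl 0
  | Sum.inr (Sum.inl _) => Sum.inl 0
  | Sum.inr (Sum.inr (Sum.inl q)) => Sum.inl (if q.1 = j then lam else 0)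
  | Sum.inr (Sum.inr (Sum.inr q)) => Sum.inl (if q.1 = j then mu else 0)

open Classical in
/-- the entry at a position of the free rows -/
noncomputable def slot (co : R → Λ → Cc) (r : R) (c : Cc) : ℂ ⊕ Option (R × Λ) :=
  if h : ∃ k, co r k = c then Sum.inr (some (r, h.choose)) else Sum.inl 0

theorem slot_pos (co : R → Λ → Cc) (hco : ∀ r, Function.Injective (co r)) (r : R) (k : Λ) :
    slot co r (co r k) = Sum.inr (some (r, k)) := by
  have h2 : ∃ k', co r k' = co r k := ⟨k, rfl⟩
  unfold slot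
  rw [dif_pos h2, hco r h2.choose_spec]

theorem slot_neg (co : R → Λ → Cc) (r : R) (c : Cc) (h : ¬ ∃ k, co r k = c) :
    slot co r c = Sum.inl 0 := by
  unfold slot
  rw [dif_neg h]

/-- the free entries -/
noncomputable def vy (co : R → Λ → Cc) (r : R) : GCol Cc L n μ → ℂ ⊕ Option (R × Λ)
  | Sum.inl c => slot co r c
  | Sum.inr _ => Sum.inl 0

/-- the class `h` times the distinguished variable -/
noncomputable def vl (j : Fin L) : GCol Cc L n μ → ℂ ⊕ Option V
  | Sum.inl _ => Sum.inl 0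
  | Sum.inr (Sum.inl _) => Sum.inl 0
  | Sum.inr (Sum.inr (Sum.inl _)) => Sum.inl 0
  | Sum.inr (Sum.inr (Sum.inr q)) => if q.1 = j then Sum.inr none else Sum.inl 0

variable {A B : Type} [CommRing A] [Algebra ℂ A] [CommRing B] [Algebra A B]
  [Fintype R] [Fintype Λ] [Fintype Cc]

theorem form_vw (Y : V → A) (x : GCol Cc L n μ → B) :
    form Y x vw = ∑ i, x (Sum.inr (Sum.inl i)) := by
  unfold form
  rw [Fintype.sum_sum_type, Fintype.sum_sum_type]
  simp [vw, val]

theorem form_vx [DecidableEq Cc] (Y : V → A) (x : GCol Cc L n μ → B) (c : Cc) :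
    form Y x (vx c) = x (Sum.inl c) := by
  unfold form
  rw [Fintype.sum_sum_type]
  simp only [vx, val, Sum.elim_inl, map_zero, zero_mul, sum_const_zero, add_zero]
  rw [Finset.sum_eq_single c]
  · simp
  · intro c' _ h
    simp [h]
  · simp

theorem form_vgh (Y : V → A) (x : GCol Cc L n μ → B) (lam mu : ℂ) (j : Fin L) :
    form Y x (vgh lam mu j) =
      algebraMap A B (algebraMap ℂ A lam) * ∑ i, x (Sum.inr (Sum.inr (Sum.inl (j, i)))) +
        algebraMap A B (algebraMap ℂ A mu) * ∑ i, x (Sum.inr (Sum.inr (Sum.inr (j, i)))) := by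
  unfold form
  rw [Fintype.sum_sum_type, Fintype.sum_sum_type, Fintype.sum_sum_type]
  simp only [vgh, val, Sum.elim_inl, map_zero, zero_mul, sum_const_zero, zero_add]
  rw [Fintype.sum_prod_type, Fintype.sum_prod_type, Finset.sum_eq_single j, Finset.sum_eq_single j]
  · simp [mul_sum]
  · intro j' _ h
    simp [h]
  · simp
  · intro j' _ h
    simp [h]
  · simp

theorem form_vl (Y : Option V → A) (x : GCol Cc L n μ → B) (j : Fin L) :
    form Y x (vl j) = algebraMap A B (Y none) * ∑ i, x (Sum.inr (Sum.inr (Sum.inr (j, i)))) := by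
  unfold form
  rw [Fintype.sum_sum_type, Fintype.sum_sum_type, Fintype.sum_sum_type]
  simp only [vl, val, Sum.elim_inl, map_zero, zero_mul, sum_const_zero, zero_add]
  rw [Fintype.sum_prod_type, Finset.sum_eq_single j]
  · simp [mul_sum]
  · intro j' _ h
    simp [h]
  · simp

theorem form_vy (co : R → Λ → Cc) (hco : ∀ r, Function.Injective (co r)) (Y : Option (R × Λ) → A)
    (x : GCol Cc L n μ → B) (r : R) :
    form Y x (vy co r) = ∑ k, algebraMap A B (Y (some (r, k))) * x (Sum.inl (co r k)) := by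
  classical
  unfold form
  rw [Fintype.sum_sum_type]
  simp only [vy, val, Sum.elim_inl, map_zero, zero_mul, sum_const_zero, add_zero]
  have h1 : ∑ k, algebraMap A B (Y (some (r, k))) * x (Sum.inl (co r k)) =
      ∑ c ∈ univ.image (co r), algebraMap A B (Sum.elim (algebraMap ℂ A) Y (slot co r c)) *
          x (Sum.inl c) := by
    rw [sum_image fun _ _ _ _ h => hco r h]
    refine Finset.sum_congr rfl fun k _ => ?_
    rw [slot_pos co hco, Sum.elim_inr]
  rw [h1]
  symm
  apply Finset.sum_subset (subset_univ _)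
  intro c _ hc
  have h2 : ¬ ∃ k, co r k = c := by
    rintro ⟨k, rfl⟩
    exact hc (mem_image_of_mem _ (mem_univ k))
  rw [slot_neg co r c h2, Sum.elim_inl, map_zero, map_zero, zero_mul]

end Forms

theorem prod_ite_lt {B : Type} [CommRing B] {D m : ℕ} (hm : m ≤ D) (g h : B) :
    ∏ v : Fin D, (if (v : ℕ) < m then g else h) = g ^ m * h ^ (D - m) := by
  rw [Finset.prod_ite, prod_const, prod_const, Fin.card_filter_val_lt, Nat.min_eq_right hm]
  congr 2
  have := Finset.card_filter_add_card_filter_not (s := (univ : Finset (Fin D))) (fun v => (v : ℕ) < m)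
  rw [card_univ, Fintype.card_fin, Fin.card_filter_val_lt, Nat.min_eq_right hm] at this
  omega

section Main

/-- the index types of the super rows -/
def KK (R Cc : Type) (L D n : ℕ) : R ⊕ Cc ⊕ Unit → Type
  | Sum.inl _ => Option (Fin L × Fin D)
  | Sum.inr (Sum.inl _) => Option (Fin L × Fin D)
  | Sum.inr (Sum.inr _) => Fin L × Fin n

noncomputable instance (R Cc : Type) (L D n : ℕ) : ∀ s, Fintype (KK R Cc L D n s)
  | Sum.inl _ => inferInstanceAs (Fintype (Option (Fin L × Fin D)))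
  | Sum.inr (Sum.inl _) => inferInstanceAs (Fintype (Option (Fin L × Fin D)))
  | Sum.inr (Sum.inr _) => inferInstanceAs (Fintype (Fin L × Fin n))

theorem KK_nonempty (R Cc : Type) {L D n : ℕ} (hL : 1 ≤ L) (hn : 1 ≤ n) :
    ∀ s, Nonempty (KK R Cc L D n s)
  | Sum.inl _ => ⟨(none : Option (Fin L × Fin D))⟩
  | Sum.inr (Sum.inl _) => ⟨(none : Option (Fin L × Fin D))⟩
  | Sum.inr (Sum.inr _) => ⟨((⟨0, hL⟩, ⟨0, hn⟩) : Fin L × Fin n)⟩

variable {R Λ Cc : Type}

/-- the forms `α` -/
noncomputable def al (co : R → Λ → Cc) (L D n μ : ℕ) (a : R → Fin L → ℕ) (b : Cc → Fin L → ℕ) :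
    (s : R ⊕ Cc ⊕ Unit) → KK R Cc L D n s → GCol Cc L n μ → ℂ ⊕ Option (R × Λ)
  | Sum.inl r => fun (k : Option (Fin L × Fin D)) =>
      k.elim (vy co r) fun q => if (q.2 : ℕ) < a r q.1 then vgh 1 0 q.1 else vgh 0 1 q.1
  | Sum.inr (Sum.inl c) => fun (k : Option (Fin L × Fin D)) =>
      k.elim vw fun q => if (q.2 : ℕ) < b c q.1 then vgh 1 0 q.1 else vgh 0 1 q.1
  | Sum.inr (Sum.inr _) => fun (q : Fin L × Fin n) =>
      if (q.1 : ℕ) = 0 ∧ (q.2 : ℕ) = 0 then vl q.1 else vgh 0 1 q.1

/-- the forms `β` -/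
noncomputable def be [DecidableEq Cc] (L D n μ : ℕ) :
    (s : R ⊕ Cc ⊕ Unit) → KK R Cc L D n s → GCol Cc L n μ → ℂ ⊕ Option (R × Λ)
  | Sum.inl _ => fun _ => vw
  | Sum.inr (Sum.inl c) => fun (k : Option (Fin L × Fin D)) => k.elim (vx c) fun _ => vw
  | Sum.inr (Sum.inr _) => fun _ => vw

theorem proj (R Λ Cc : Type) [Fintype R] [Fintype Λ] [Fintype Cc] (co : R → Λ → Cc)
    (hco : ∀ r, Function.Injective (co r)) (L D s M : ℕ) (hL : 1 ≤ L) (hD : 1 ≤ D) (hs : 1 ≤ s)
    (a : R → Fin L → ℕ) (ha : ∀ r j, a r j ≤ D) (b : Cc → Fin L → ℕ) (hb : ∀ c j, b c j ≤ D)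
    (f : Fin L → ℕ → ℂ) (hf : ∀ j k, f j k ≠ 0)
    (hM : M = 3 * ((Fintype.card R + Fintype.card Cc) * (L * D + 1) + 2 * s * L * D) +
      2 * s * L * D) :
    ∃ (e : Fin M → Fin M → ℂ ⊕ Option (R × Λ)) (C : ℂ), C ≠ 0 ∧
      ∀ (A : Type) [CommRing A] [Algebra ℂ A] (Y : Option (R × Λ) → A),
        (Matrix.of fun i j => (e i j).elim (algebraMap ℂ A) Y).permanent =
          algebraMap ℂ A C * (algebraMap ℂ A (∏ j, f j 0) * Y none +
            ∑ S ∈ match' co s, algebraMap ℂ A (∏ j, f j (∑ q ∈ S, (a q.1 j + b (co q.1 q.2) j))) *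
              ∏ q ∈ S, Y (some q)) := by
  classical
  set n := 2 * s * D with hn
  set μ := Fintype.card R * (L * D + 1) + Fintype.card Cc * (L * D) with hμ
  have hn1 : 1 ≤ n := by
    rw [hn]
    exact Nat.mul_pos (Nat.mul_pos (by norm_num) hs) hD
  choose lam mu hlm using fun j => exists_split n hn1 (f j) (hf j n)
  have hKn : ∀ s, Nonempty (KK R Cc L D n s) := KK_nonempty R Cc hL hn1
  have hcK : ∑ s, Fintype.card (KK R Cc L D n s) =
      (Fintype.card R + Fintype.card Cc) * (L * D + 1) + L * n := by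
    rw [Fintype.sum_sum_type, Fintype.sum_sum_type]
    have e1 : ∀ r : R, Fintype.card (KK R Cc L D n (Sum.inl r)) = L * D + 1 := by
      intro r
      change Fintype.card (Option (Fin L × Fin D)) = _
      simp
    have e2 : ∀ c : Cc, Fintype.card (KK R Cc L D n (Sum.inr (Sum.inl c))) = L * D + 1 := by
      intro r
      change Fintype.card (Option (Fin L × Fin D)) = _
      simp
    have e3 : ∀ u : Unit, Fintype.card (KK R Cc L D n (Sum.inr (Sum.inr u))) = L * n := by
      intro r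
      change Fintype.card (Fin L × Fin n) = _
      simp
    rw [Finset.sum_congr rfl fun r _ => e1 r, Finset.sum_congr rfl fun r _ => e2 r,
      Finset.sum_congr rfl fun r _ => e3 r]
    simp only [sum_const, card_univ, smul_eq_mul, Fintype.card_unit]
    ring
  have hcg : Fintype.card (GCol Cc L n μ) =
      Fintype.card Cc + (μ + (L * n + L * n)) := by
    simp only [Fintype.card_sum, Fintype.card_prod, Fintype.card_fin]
  obtain ⟨e, C, hC, hperm⟩ := super (V := Option (R × Λ)) (κ := GCol Cc L n μ)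
    (ρ := Fin L × Fin n) (KK R Cc L D n) (al co L D n μ a b) (be L D n μ)
    (fun q => vgh (lam q.1 q.2) (mu q.1 q.2) q.1) M (by
      rw [hcK, hcg, Fintype.card_prod, Fintype.card_fin, Fintype.card_fin, hμ]
      ring) (by
      rw [hcK, hM, Fintype.card_prod, Fintype.card_fin, Fintype.card_fin, hn]
      ring)
  refine ⟨e, C * ((μ.factorial : ℂ) * ((n.factorial : ℂ) * (n.factorial : ℂ)) ^ L), ?_, ?_⟩
  · have h := fun k : ℕ => (Nat.cast_ne_zero (R := ℂ)).2 (Nat.factorial_ne_zero k)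
    exact mul_ne_zero hC (mul_ne_zero (h _) (pow_ne_zero _ (mul_ne_zero (h _) (h _))))
  intro A _ _ Y
  rw [hperm A Y (algebraMap ℂ A ((μ.factorial : ℂ) * ((n.factorial : ℂ) * (n.factorial : ℂ)) ^ L) *
    (algebraMap ℂ A (∏ j, f j 0) * Y none + ∑ S ∈ match' co s, algebraMap ℂ A (∏ j, f j
      (∑ q ∈ S, (a q.1 j + b (co q.1 q.2) j))) * ∏ q ∈ S, Y (some q))) ?_]
  · rw [map_mul (algebraMap ℂ A) C]
    ring
  intro B _ _ x hx
  let w : B := ∑ i, x (Sum.inr (Sum.inl i))
  let g : Fin L → B := fun j => ∑ i, x (Sum.inr (Sum.inr (Sum.inl (j, i))))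
  let h : Fin L → B := fun j => ∑ i, x (Sum.inr (Sum.inr (Sum.inr (j, i))))
  have hwp : w ^ μ = (μ.factorial : B) * ∏ i, x (Sum.inr (Sum.inl i)) := by
    have := (sum_pow (x := fun i : Fin μ => x (Sum.inr (Sum.inl i))) (fun _ => hx _) univ).1
    rwa [card_univ, Fintype.card_fin] at this
  have hw0 : w ^ (μ + 1) = 0 := by
    have := (sum_pow (x := fun i : Fin μ => x (Sum.inr (Sum.inl i))) (fun _ => hx _) univ).2
    rwa [card_univ, Fintype.card_fin] at this
  have hgp : ∀ j, g j ^ n = (n.factorial : B) * ∏ i, x (Sum.inr (Sum.inr (Sum.inl (j, i)))) := by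
    intro j
    have := (sum_pow (x := fun i : Fin n => x (Sum.inr (Sum.inr (Sum.inl (j, i)))))
      (fun _ => hx _) univ).1
    rwa [card_univ, Fintype.card_fin] at this
  have hg0 : ∀ j, g j ^ (n + 1) = 0 := by
    intro j
    have := (sum_pow (x := fun i : Fin n => x (Sum.inr (Sum.inr (Sum.inl (j, i)))))
      (fun _ => hx _) univ).2
    rwa [card_univ, Fintype.card_fin] at this
  have hhp : ∀ j, h j ^ n = (n.factorial : B) * ∏ i, x (Sum.inr (Sum.inr (Sum.inr (j, i)))) := by
    intro j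
    have := (sum_pow (x := fun i : Fin n => x (Sum.inr (Sum.inr (Sum.inr (j, i)))))
      (fun _ => hx _) univ).1
    rwa [card_univ, Fintype.card_fin] at this
  have hh0 : ∀ j, h j ^ (n + 1) = 0 := by
    intro j
    have := (sum_pow (x := fun i : Fin n => x (Sum.inr (Sum.inr (Sum.inr (j, i)))))
      (fun _ => hx _) univ).2
    rwa [card_univ, Fintype.card_fin] at this
  let z : (Fin L × Fin n) ⊕ (Fin L × Fin n) → B := fun q => x (Sum.inr (Sum.inr q))
  have hgD : ∀ j, g j ∈ Deg z univ 1 := fun j => Submodule.sum_mem _ fun i _ =>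
    x_mem_Deg (x := z) (mem_univ (Sum.inl (j, i)))
  have hhD : ∀ j, h j ∈ Deg z univ 1 := fun j => Submodule.sum_mem _ fun i _ =>
    x_mem_Deg (x := z) (mem_univ (Sum.inr (j, i)))
  have hcore := top_core co L D s hL hD a ha b hb
    (fun j k => algebraMap A B (algebraMap ℂ A (f j k))) (fun q => algebraMap A B (Y (some q)))
    (algebraMap A B (Y none)) (fun c => x (Sum.inl c)) (fun _ => hx _) w hw0 z (fun _ => hx _)
    (by simp only [Fintype.card_sum, Fintype.card_prod, Fintype.card_fin]; rw [← hn]; ring)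
    g h hgD hhD hg0 hh0
  rw [← hn, ← hμ] at hcore
  -- the forms
  have f1g : ∀ j, form Y x (vgh 1 0 j) = g j := by
    intro j
    rw [form_vgh, map_one, map_one, map_zero, map_zero, one_mul, zero_mul, add_zero]
  have f1h : ∀ j, form Y x (vgh 0 1 j) = h j := by
    intro j
    rw [form_vgh, map_one, map_one, map_zero, map_zero, one_mul, zero_mul, zero_add]
  have fgh : ∀ (m : Fin L → ℕ), (∀ j, m j ≤ D) → ∏ q : Fin L × Fin D,
      form Y x (if (q.2 : ℕ) < m q.1 then vgh 1 0 q.1 else vgh 0 1 q.1) =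
        ∏ j, g j ^ m j * h j ^ (D - m j) := by
    intro m hm
    rw [Fintype.prod_prod_type]
    refine prod_congr rfl fun j _ => ?_
    rw [← prod_ite_lt (hm j)]
    refine prod_congr rfl fun v _ => ?_
    split_ifs
    · exact f1g j
    · exact f1h j
  have frow : ∀ r, ∏ k, form Y x (al co L D n μ a b (Sum.inl r) k) +
      ∏ k, form Y x (be (R := R) (Λ := Λ) L D n μ (Sum.inl r) k) =
      (∑ k, algebraMap A B (Y (some (r, k))) * x (Sum.inl (co r k))) *
        (∏ j, g j ^ a r j * h j ^ (D - a r j)) + w * w ^ (L * D) := by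
    intro r
    change ∏ k : Option (Fin L × Fin D), form Y x (k.elim (vy co r) fun q =>
        if (q.2 : ℕ) < a r q.1 then vgh 1 0 q.1 else vgh 0 1 q.1) +
      ∏ k : Option (Fin L × Fin D), form Y x vw = _
    rw [Fintype.prod_option, Fintype.prod_option]
    simp only [Option.elim_none, Option.elim_some]
    rw [fgh (a r) (ha r), form_vy co hco, form_vw, prod_const, card_univ, Fintype.card_prod,
      Fintype.card_fin, Fintype.card_fin]
  have fcol : ∀ c, ∏ k, form Y x (al co L D n μ a b (Sum.inr (Sum.inl c)) k) +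
      ∏ k, form Y x (be (R := R) (Λ := Λ) L D n μ (Sum.inr (Sum.inl c)) k) =
      w * (∏ j, g j ^ b c j * h j ^ (D - b c j)) + x (Sum.inl c) * w ^ (L * D) := by
    intro c
    change ∏ k : Option (Fin L × Fin D), form Y x (k.elim vw fun q =>
        if (q.2 : ℕ) < b c q.1 then vgh 1 0 q.1 else vgh 0 1 q.1) +
      ∏ k : Option (Fin L × Fin D), form Y x (k.elim (vx c) fun _ => vw) = _
    rw [Fintype.prod_option, Fintype.prod_option]
    simp only [Option.elim_none, Option.elim_some]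
    rw [fgh (b c) (hb c), form_vx, form_vw, prod_const, card_univ, Fintype.card_prod,
      Fintype.card_fin, Fintype.card_fin]
  have fl : ∀ u, ∏ k, form Y x (al co L D n μ a b (Sum.inr (Sum.inr u)) k) +
      ∏ k, form Y x (be (R := R) (Λ := Λ) L D n μ (Sum.inr (Sum.inr u)) k) =
      algebraMap A B (Y none) * ∏ j, h j ^ n + w ^ (L * n) := by
    intro u
    change ∏ q : Fin L × Fin n, form Y x (if (q.1 : ℕ) = 0 ∧ (q.2 : ℕ) = 0 then vl q.1
        else vgh 0 1 q.1) + ∏ q : Fin L × Fin n, form Y x vw = _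
    rw [form_vw, prod_const, card_univ, Fintype.card_prod, Fintype.card_fin, Fintype.card_fin]
    congr 1
    have e1 : ∀ q : Fin L × Fin n, form Y x (if (q.1 : ℕ) = 0 ∧ (q.2 : ℕ) = 0 then vl q.1
        else vgh 0 1 q.1) = (if q = (⟨0, hL⟩, ⟨0, hn1⟩) then algebraMap A B (Y none) else 1) *
          h q.1 := by
      rintro ⟨j, v⟩
      by_cases hq : (j : ℕ) = 0 ∧ (v : ℕ) = 0
      · rw [if_pos hq, if_pos (Prod.ext (Fin.ext hq.1) (Fin.ext hq.2)), form_vl]
      · rw [if_neg hq, if_neg, one_mul, f1h]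
        intro heq
        apply hq
        have h1 := (Prod.mk.inj heq).1
        have h2 := (Prod.mk.inj heq).2
        rw [h1, h2]
        exact ⟨rfl, rfl⟩
    rw [prod_congr rfl fun q _ => e1 q, prod_mul_distrib, Finset.prod_ite_eq' univ, if_pos (mem_univ _),
      Fintype.prod_prod_type]
    congr 1
    refine prod_congr rfl fun j _ => ?_
    change ∏ _y : Fin n, h j = _
    rw [prod_const, card_univ, Fintype.card_fin]
  have fq : ∏ q : Fin L × Fin n, form Y x (vgh (lam q.1 q.2) (mu q.1 q.2) q.1) =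
      ∏ j, ∑ K ∈ range (n + 1), algebraMap A B (algebraMap ℂ A (f j K)) * g j ^ (n - K) *
        h j ^ K := by
    rw [Fintype.prod_prod_type]
    refine prod_congr rfl fun j _ => ?_
    rw [prod_congr rfl fun v _ => form_vgh Y x (lam j v) (mu j v) j]
    exact hlm j B ((algebraMap A B).comp (algebraMap ℂ A)) (g j) (h j)
  rw [Fintype.prod_sum_type, Fintype.prod_sum_type, prod_congr rfl fun r _ => frow r,
    prod_congr rfl fun c _ => fcol c, prod_congr rfl fun u _ => fl u, fq, ← mul_assoc,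
    Finset.prod_const, card_univ, Fintype.card_unit, pow_one]
  rw [hcore]
  have hx2 : ∏ c, x c = (∏ c, x (Sum.inl c)) * ((∏ i, x (Sum.inr (Sum.inl i))) *
      ((∏ j, ∏ i, x (Sum.inr (Sum.inr (Sum.inl (j, i))))) *
        ∏ j, ∏ i, x (Sum.inr (Sum.inr (Sum.inr (j, i)))))) := by
    rw [Fintype.prod_sum_type, Fintype.prod_sum_type, Fintype.prod_sum_type,
      Fintype.prod_prod_type, Fintype.prod_prod_type]
  have hgh : ∏ j, g j ^ n * h j ^ n = ((n.factorial : B) * (n.factorial : B)) ^ L *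
      ((∏ j, ∏ i, x (Sum.inr (Sum.inr (Sum.inl (j, i))))) *
        ∏ j, ∏ i, x (Sum.inr (Sum.inr (Sum.inr (j, i))))) := by
    rw [← prod_mul_distrib]
    have e1 : ((n.factorial : B) * (n.factorial : B)) ^ L =
        ∏ _j : Fin L, ((n.factorial : B) * (n.factorial : B)) := by
      rw [prod_const, card_univ, Fintype.card_fin]
    rw [e1, ← prod_mul_distrib]
    refine prod_congr rfl fun j _ => ?_
    rw [hgp, hhp]
    ring
  rw [hx2, hwp, hgh]
  simp only [map_mul, map_add, map_sum, map_prod, map_pow, map_natCast]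
  ring

end Main

end Helper16.N3
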