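import Pool.Agent.Helper16.SQG.Ring

/-!
# N3: rows which are used all or not at all
-/

set_option autoImplicit false
set_option linter.unusedSectionVars false

namespace Helper16.N3

open Finset Helper16.SQG

section Deg

variable {B κ : Type} [CommRing B] [DecidableEq κ] {x : κ → B}

theorem mul_mem_Deg (hx : ∀ c, x c * x c = 0) {S : Finset κ} {k l : ℕ} {y z : B} (hy : y ∈ Deg x S k)
    (hz : z ∈ Deg x S l) : y * z ∈ Deg x S (k + l) := by
  unfold Deg at hz
  induction hz using Submodule.span_induction with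
  | mem z hz =>
    obtain ⟨T, hT, hk, rfl⟩ := hz
    have := mul_prod_mem_Deg hx hy T x (fun c hc => x_mem_Deg (hT hc))
    rwa [hk] at this
  | zero => rw [mul_zero]; exact Submodule.zero_mem _
  | add z z' _ _ h1 h2 => rw [mul_add]; exact Submodule.add_mem _ h1 h2
  | smul a z _ h =>
    rw [smul_eq_mul, mul_left_comm]
    exact Submodule.smul_mem _ a h

theorem mul_left_mem_Deg {S : Finset κ} {k : ℕ} (a : B) {z : B} (hz : z ∈ Deg x S k) :
    a * z ∈ Deg x S k := Submodule.smul_mem _ a hz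

theorem Deg_succ_le (S : Finset κ) (k : ℕ) : Deg x S (k + 1) ≤ Deg x S k := by
  unfold Deg
  rw [Submodule.span_le]
  rintro _ ⟨T, hT, hk, rfl⟩
  obtain ⟨c, hc⟩ := card_pos.1 (show 0 < T.card by omega)
  rw [← mul_prod_erase T x hc]
  refine Submodule.smul_mem _ (x c) (Submodule.subset_span ⟨T.erase c, (erase_subset _ _).trans hT, ?_, rfl⟩)
  rw [card_erase_of_mem hc, hk, Nat.add_sub_cancel]

theorem Deg_anti (S : Finset κ) {k l : ℕ} (h : k ≤ l) : Deg x S l ≤ Deg x S k := by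
  induction l, h using Nat.le_induction with
  | base => exact le_refl _
  | succ l _ ih => exact (Deg_succ_le S l).trans ih

theorem prod_mem_Deg (hx : ∀ c, x c * x c = 0) {S : Finset κ} {ι : Type} (t : Finset ι) (y : ι → B)
    (hy : ∀ i ∈ t, y i ∈ Deg x S 1) : ∏ i ∈ t, y i ∈ Deg x S t.card := by
  have := mul_prod_mem_Deg hx (one_mem_Deg S) t y hy
  rwa [one_mul, zero_add] at this

theorem pow_mem_Deg (hx : ∀ c, x c * x c = 0) {S : Finset κ} {y : B} (hy : y ∈ Deg x S 1) (l : ℕ) :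
    y ^ l ∈ Deg x S l := by
  have := mul_pow_mem_Deg hx (one_mem_Deg S) hy l
  rwa [one_mul, zero_add] at this

end Deg

section Super

variable {B κ : Type} [CommRing B] [DecidableEq κ] {x : κ → B}

/-- Expansion of `∏ (α k + P)` modulo terms of positive degree. -/
theorem prod_add_sub_mem {S : Finset κ} {ι : Type} (t : Finset ι) (α : ι → B)
    (P : B) (hα : ∀ i ∈ t, α i ∈ Deg x S 1) : ∏ i ∈ t, (α i + P) - P ^ t.card ∈ Deg x S 1 := by
  classical
  induction t using Finset.induction_on with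
  | empty => simp
  | insert a t ha ih =>
    rw [prod_insert ha, card_insert_of_notMem ha]
    have h1 := ih fun i hi => hα i (mem_insert_of_mem hi)
    have h2 := hα a (mem_insert_self _ _)
    have e : (α a + P) * ∏ i ∈ t, (α i + P) - P ^ (t.card + 1) =
        P * (∏ i ∈ t, (α i + P) - P ^ t.card) + (∏ i ∈ t, (α i + P)) * α a := by ring
    rw [e]
    exact Submodule.add_mem _ (mul_left_mem_Deg _ h1) (mul_left_mem_Deg _ h2)

theorem super_one (hx : ∀ c, x c * x c = 0) {S : Finset κ} {ι : Type} [Fintype ι] (α β : ι → B)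
    (P Q : B) (hα : ∀ i, α i ∈ Deg x S 1) (hβ : ∀ i, β i ∈ Deg x S 1)
    (hP : P ^ (Fintype.card ι + 1) = 0) (hQ : Q ^ (Fintype.card ι + 1) = 0) :
    (∏ k, (α k + P)) * (∏ k, (β k + Q)) * (Q ^ Fintype.card ι + P ^ Fintype.card ι) -
      P ^ Fintype.card ι * Q ^ Fintype.card ι * (∏ k, α k + ∏ k, β k) ∈
        Deg x S (Fintype.card ι + 1) := by
  set n := Fintype.card ι with hn
  have h1 : Q ^ n * ∏ k, (β k + Q) = Q ^ n * ∏ k, β k := by
    apply mul_prod_congr
    intro i _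
    rw [add_sub_cancel_left, ← pow_succ, hQ]
  have h2 : P ^ n * ∏ k, (α k + P) = P ^ n * ∏ k, α k := by
    apply mul_prod_congr
    intro i _
    rw [add_sub_cancel_left, ← pow_succ, hP]
  have hb := prod_mem_Deg hx (univ : Finset ι) β (fun i _ => hβ i)
  have ha := prod_mem_Deg hx (univ : Finset ι) α (fun i _ => hα i)
  have h3 := prod_add_sub_mem (univ : Finset ι) α P (fun i _ => hα i)
  have h4 := prod_add_sub_mem (univ : Finset ι) β Q (fun i _ => hβ i)
  rw [card_univ, ← hn] at ha hb h3 h4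
  have e : (∏ k, (α k + P)) * (∏ k, (β k + Q)) * (Q ^ n + P ^ n) -
      P ^ n * Q ^ n * (∏ k, α k + ∏ k, β k) =
      Q ^ n * ((∏ k, β k) * (∏ k, (α k + P) - P ^ n)) +
        P ^ n * ((∏ k, α k) * (∏ k, (β k + Q) - Q ^ n)) := by
    linear_combination (∏ k, (α k + P)) * h1 + (∏ k, (β k + Q)) * h2
  rw [e]
  exact Submodule.add_mem _ (mul_left_mem_Deg _ (mul_mem_Deg hx hb h3))
    (mul_left_mem_Deg _ (mul_mem_Deg hx ha h4))

theorem prod_sub_prod_mem (hx : ∀ c, x c * x c = 0) {S : Finset κ} {ι : Type} (t : Finset ι) (y z : ι → B)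
    (m : ι → ℕ) (hz : ∀ i ∈ t, z i ∈ Deg x S (m i)) (hyz : ∀ i ∈ t, y i - z i ∈ Deg x S (m i + 1)) :
    ∏ i ∈ t, z i ∈ Deg x S (∑ i ∈ t, m i) ∧ ∏ i ∈ t, y i ∈ Deg x S (∑ i ∈ t, m i) ∧
      ∏ i ∈ t, y i - ∏ i ∈ t, z i ∈ Deg x S (∑ i ∈ t, m i + 1) := by
  classical
  induction t using Finset.induction_on with
  | empty =>
    refine ⟨?_, ?_, ?_⟩
    · simpa using one_mem_Deg S
    · simpa using one_mem_Deg S
    · simp
  | insert a t ha ih =>
    obtain ⟨h1, h2, h3⟩ := ih (fun i hi => hz i (mem_insert_of_mem hi))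
      (fun i hi => hyz i (mem_insert_of_mem hi))
    have h4 := hz a (mem_insert_self _ _)
    have h5 := hyz a (mem_insert_self _ _)
    have h6 : y a ∈ Deg x S (m a) := by
      have := Submodule.add_mem _ (Deg_succ_le S _ h5) h4
      rwa [sub_add_cancel] at this
    rw [prod_insert ha, prod_insert ha, sum_insert ha]
    refine ⟨mul_mem_Deg hx h4 h1, mul_mem_Deg hx h6 h2, ?_⟩
    have e : y a * ∏ i ∈ t, y i - z a * ∏ i ∈ t, z i =
        y a * (∏ i ∈ t, y i - ∏ i ∈ t, z i) + (y a - z a) * ∏ i ∈ t, z i := by ring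
    rw [e]
    refine Submodule.add_mem _ ?_ ?_
    · have := mul_mem_Deg hx h6 h3
      rwa [← add_assoc] at this
    · have := mul_mem_Deg hx h5 h1
      rwa [show m a + 1 + ∑ i ∈ t, m i = m a + ∑ i ∈ t, m i + 1 by ring] at this

theorem super_prod (hx : ∀ c, x c * x c = 0) [Fintype κ] {σ : Type} [Fintype σ] (K : σ → Type)
    [∀ s, Fintype (K s)] (P Q : σ → B) (α β : (s : σ) → K s → B)
    (hα : ∀ s k, α s k ∈ Deg x univ 1) (hβ : ∀ s k, β s k ∈ Deg x univ 1)
    (hP : ∀ s, P s ^ (Fintype.card (K s) + 1) = 0) (hQ : ∀ s, Q s ^ (Fintype.card (K s) + 1) = 0)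
    {W : B} {w : ℕ} (hW : W ∈ Deg x univ w) (hc : ∑ s, Fintype.card (K s) + w = Fintype.card κ) :
    (∏ s, ((∏ k, (α s k + P s)) * (∏ k, (β s k + Q s)) *
      (Q s ^ Fintype.card (K s) + P s ^ Fintype.card (K s)))) * W =
    (∏ s, (P s ^ Fintype.card (K s) * Q s ^ Fintype.card (K s) *
      (∏ k, α s k + ∏ k, β s k))) * W := by
  have h := (prod_sub_prod_mem (S := univ) hx (univ : Finset σ)
    (fun s => (∏ k, (α s k + P s)) * (∏ k, (β s k + Q s)) *
      (Q s ^ Fintype.card (K s) + P s ^ Fintype.card (K s)))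
    (fun s => P s ^ Fintype.card (K s) * Q s ^ Fintype.card (K s) * (∏ k, α s k + ∏ k, β s k))
    (fun s => Fintype.card (K s)) ?_ ?_).2.2
  · have h2 := mul_mem_Deg hx h hW
    have h3 := Deg_eq_zero (by rw [card_univ, ← hc]; omega) h2
    rw [sub_mul, sub_eq_zero] at h3
    exact h3
  · intro s _
    have ha := prod_mem_Deg hx (univ : Finset (K s)) (α s) (fun i _ => hα s i)
    have hb := prod_mem_Deg hx (univ : Finset (K s)) (β s) (fun i _ => hβ s i)
    rw [card_univ] at ha hb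
    exact mul_left_mem_Deg _ (Submodule.add_mem _ ha hb)
  · intro s _
    exact super_one hx (α s) (β s) (P s) (Q s) (hα s) (hβ s) (hP s) (hQ s)

end Super

section Theta

/-- There are `n` numbers `θ` with `∏ (θ P + D) = D ^ n + P ^ n`. -/
theorem exists_theta (ι : Type) [Fintype ι] [Nonempty ι] : ∃ θ : ι → ℂ, ∀ (B : Type) [CommRing B]
    (f : ℂ →+* B) (D P : B), ∏ k, (f (θ k) * P + D) = D ^ Fintype.card ι + P ^ Fintype.card ι := by
  have hn : 0 < Fintype.card ι := Fintype.card_pos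
  obtain ⟨μ, hμ⟩ := IsAlgClosed.exists_pow_nat_eq (-1 : ℂ) hn
  have hprim : IsPrimitiveRoot (Complex.exp (2 * Real.pi * Complex.I / (Fintype.card ι : ℕ)))
    (Fintype.card ι) := Complex.isPrimitiveRoot_exp _ (by omega)
  set ζ := Complex.exp (2 * Real.pi * Complex.I / (Fintype.card ι : ℕ)) with hζ
  refine ⟨fun k => -μ * ζ ^ ((Fintype.equivFin ι k : Fin _) : ℕ), fun B _ f D P => ?_⟩
  have h := prod_roots f (show 1 ≤ Fintype.card ι by omega) hprim D (f (-μ) * P)
  rw [← Equiv.prod_comp (Fintype.equivFin ι)] at h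
  have e : ∀ k : ι, f (-μ * ζ ^ ((Fintype.equivFin ι k : Fin _) : ℕ)) * P + D =
      f (ζ ^ ((Fintype.equivFin ι k : Fin _) : ℕ)) * (f (-μ) * P) + D := by
    intro k
    rw [map_mul]
    ring
  rw [prod_congr rfl fun k _ => e k, h, ← neg_mul, ← map_neg, neg_neg, mul_pow, ← map_pow, hμ]
  simp

end Theta

section Matrix

/-- the value of an entry -/
def val {V A : Type} [CommRing A] [Algebra ℂ A] (Y : V → A) (u : ℂ ⊕ V) : A :=
  u.elim (algebraMap ℂ A) Y

/-- the linear form of a row -/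
noncomputable def form {V A B κ : Type} [CommRing A] [Algebra ℂ A] [CommRing B] [Algebra A B]
    [Fintype κ] (Y : V → A) (x : κ → B) (v : κ → ℂ ⊕ V) : B :=
  ∑ c, algebraMap A B (val Y (v c)) * x c

theorem form_mem {V A B κ : Type} [CommRing A] [Algebra ℂ A] [CommRing B] [Algebra A B]
    [Fintype κ] [DecidableEq κ] (Y : V → A) (x : κ → B) (v : κ → ℂ ⊕ V) :
    form Y x v ∈ Deg x univ 1 :=
  sum_mem_Deg (subset_refl _) _

variable {κ ρ σ V : Type} (K : σ → Type)

/-- the entries of the big matrix -/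
noncomputable def sent [DecidableEq σ] (α β : (s : σ) → K s → κ → ℂ ⊕ V) (γ : ρ → κ → ℂ ⊕ V)
    (θ : (s : σ) → K s → ℂ) :
    (Σ s, K s) ⊕ (Σ s, K s) ⊕ (Σ s, K s) ⊕ ρ → κ ⊕ (Σ s, K s) ⊕ (Σ s, K s) → ℂ ⊕ V
  | Sum.inl i, Sum.inl c => α i.1 i.2 c
  | Sum.inl i, Sum.inr (Sum.inl j) => Sum.inl (if i.1 = j.1 then 1 else 0)
  | Sum.inl _, Sum.inr (Sum.inr _) => Sum.inl 0
  | Sum.inr (Sum.inl i), Sum.inl c => β i.1 i.2 c
  | Sum.inr (Sum.inl _), Sum.inr (Sum.inl _) => Sum.inl 0
  | Sum.inr (Sum.inl i), Sum.inr (Sum.inr j) => Sum.inl (if i.1 = j.1 then 1 else 0)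
  | Sum.inr (Sum.inr (Sum.inl _)), Sum.inl _ => Sum.inl 0
  | Sum.inr (Sum.inr (Sum.inl i)), Sum.inr (Sum.inl j) =>
      Sum.inl (if i.1 = j.1 then θ i.1 i.2 else 0)
  | Sum.inr (Sum.inr (Sum.inl i)), Sum.inr (Sum.inr j) => Sum.inl (if i.1 = j.1 then 1 else 0)
  | Sum.inr (Sum.inr (Sum.inr r)), Sum.inl c => γ r c
  | Sum.inr (Sum.inr (Sum.inr _)), Sum.inr _ => Sum.inl 0

theorem ite_sigma [Fintype σ] [DecidableEq σ] [∀ s, Fintype (K s)] {B : Type} [CommRing B] (s : σ)
    (a : B) (z : (Σ s, K s) → B) :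
    ∑ j : (Σ s, K s), (if s = j.1 then a else 0) * z j = a * ∑ k, z ⟨s, k⟩ := by
  rw [Fintype.sum_sigma, Finset.sum_eq_single s]
  · simp [Finset.mul_sum]
  · intro s' _ h
    simp [h.symm]
  · simp

theorem super [Fintype κ] [Fintype ρ] [Fintype σ] [∀ s, Fintype (K s)] [∀ s, Nonempty (K s)]
    (α β : (s : σ) → K s → κ → ℂ ⊕ V) (γ : ρ → κ → ℂ ⊕ V) (M : ℕ)
    (hc : ∑ s, Fintype.card (K s) + Fintype.card ρ = Fintype.card κ)
    (hM : M = 3 * ∑ s, Fintype.card (K s) + Fintype.card ρ) :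
    ∃ (e : Fin M → Fin M → ℂ ⊕ V) (C : ℂ), C ≠ 0 ∧
      ∀ (A : Type) [CommRing A] [Algebra ℂ A] (Y : V → A) (z : A),
        (∀ (B : Type) [CommRing B] [Algebra A B] (x : κ → B), (∀ c, x c * x c = 0) →
          (∏ s, (∏ k, form Y x (α s k) + ∏ k, form Y x (β s k))) * ∏ r, form Y x (γ r) =
            algebraMap A B z * ∏ c, x c) →
        (Matrix.of fun i j => (e i j).elim (algebraMap ℂ A) Y).permanent =
          algebraMap ℂ A C * z := by
  classical
  choose θ hθ using fun s => exists_theta (K s)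
  have hcR : Fintype.card ((Σ s, K s) ⊕ (Σ s, K s) ⊕ (Σ s, K s) ⊕ ρ) = M := by
    simp only [Fintype.card_sum, Fintype.card_sigma]
    omega
  have hcC : Fintype.card (κ ⊕ (Σ s, K s) ⊕ (Σ s, K s)) = M := by
    simp only [Fintype.card_sum, Fintype.card_sigma]
    omega
  let eR := (Fintype.equivFinOfCardEq hcR).symm
  let eC := (Fintype.equivFinOfCardEq hcC).symm
  refine ⟨fun i j => sent K α β γ θ (eR i) (eC j),
    ∏ s, ((Fintype.card (K s)).factorial : ℂ) * ((Fintype.card (K s)).factorial : ℂ), ?_, ?_⟩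
  · rw [Finset.prod_ne_zero_iff]
    intro s _
    exact mul_ne_zero (Nat.cast_ne_zero.2 (Nat.factorial_ne_zero _))
      (Nat.cast_ne_zero.2 (Nat.factorial_ne_zero _))
  intro A _ _ Y z hz
  let κ' := κ ⊕ (Σ s, K s) ⊕ (Σ s, K s)
  let B := SqR κ' A
  let f : A →+* B := algebraMap A B
  let x : κ' → B := xs κ' A
  have hx : ∀ c, x c * x c = 0 := xs_sq κ' A
  apply xs_inj κ' A
  have key := prod_forms' f eR eC (fun r c => val Y (sent K α β γ θ r c)) x hx
  refine key.symm.trans ?_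
  have f0 : f (algebraMap ℂ A 0) = 0 := by rw [map_zero, map_zero]
  have f1 : f (algebraMap ℂ A 1) = 1 := by rw [map_one, map_one]
  let xg : κ → B := fun c => x (Sum.inl c)
  let P : σ → B := fun s => ∑ k, x (Sum.inr (Sum.inl ⟨s, k⟩))
  let Q : σ → B := fun s => ∑ k, x (Sum.inr (Sum.inr ⟨s, k⟩))
  have hPow : ∀ s, P s ^ Fintype.card (K s) = ((Fintype.card (K s)).factorial : B) *
      ∏ k, x (Sum.inr (Sum.inl ⟨s, k⟩)) := by
    intro s
    have := (sum_pow (x := fun k : K s => x (Sum.inr (Sum.inl ⟨s, k⟩))) (fun k => hx _) univ).1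
    rwa [card_univ] at this
  have hQow : ∀ s, Q s ^ Fintype.card (K s) = ((Fintype.card (K s)).factorial : B) *
      ∏ k, x (Sum.inr (Sum.inr ⟨s, k⟩)) := by
    intro s
    have := (sum_pow (x := fun k : K s => x (Sum.inr (Sum.inr ⟨s, k⟩))) (fun k => hx _) univ).1
    rwa [card_univ] at this
  have hP0 : ∀ s, P s ^ (Fintype.card (K s) + 1) = 0 := by
    intro s
    have := (sum_pow (x := fun k : K s => x (Sum.inr (Sum.inl ⟨s, k⟩))) (fun k => hx _) univ).2
    rwa [card_univ] at this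
  have hQ0 : ∀ s, Q s ^ (Fintype.card (K s) + 1) = 0 := by
    intro s
    have := (sum_pow (x := fun k : K s => x (Sum.inr (Sum.inr ⟨s, k⟩))) (fun k => hx _) univ).2
    rwa [card_univ] at this
  have hW : ∏ r, form Y xg (γ r) ∈ Deg xg univ (Fintype.card ρ) := by
    have := prod_mem_Deg (x := xg) (fun c => hx _) (univ : Finset ρ) (fun r => form Y xg (γ r))
      (fun r _ => form_mem Y xg (γ r))
    rwa [card_univ] at this
  have hsup := super_prod (x := xg) (fun c => hx _) K P Q (fun s k => form Y xg (α s k))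
    (fun s k => form Y xg (β s k)) (fun s k => form_mem Y xg _) (fun s k => form_mem Y xg _)
    hP0 hQ0 hW hc
  have hz' := hz B xg (fun c => hx _)
  -- the rows
  have r1 : ∀ i : (Σ s, K s), ∑ c, f (val Y (sent K α β γ θ (Sum.inl i) c)) * x c =
      form Y xg (α i.1 i.2) + P i.1 := by
    intro i
    rw [Fintype.sum_sum_type, Fintype.sum_sum_type]
    simp only [sent, val, Sum.elim_inl, f0, zero_mul, sum_const_zero, add_zero]
    congr 1
    have := ite_sigma K i.1 (1 : B) (fun j => x (Sum.inr (Sum.inl j)))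
    rw [one_mul] at this
    refine Eq.trans ?_ this
    refine Finset.sum_congr rfl fun j _ => ?_
    split_ifs
    · rw [f1]
    · rw [f0]
  have r2 : ∀ i : (Σ s, K s), ∑ c, f (val Y (sent K α β γ θ (Sum.inr (Sum.inl i)) c)) * x c =
      form Y xg (β i.1 i.2) + Q i.1 := by
    intro i
    rw [Fintype.sum_sum_type, Fintype.sum_sum_type]
    simp only [sent, val, Sum.elim_inl, f0, zero_mul, sum_const_zero, zero_add]
    congr 1
    have := ite_sigma K i.1 (1 : B) (fun j => x (Sum.inr (Sum.inr j)))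
    rw [one_mul] at this
    refine Eq.trans ?_ this
    refine Finset.sum_congr rfl fun j _ => ?_
    split_ifs
    · rw [f1]
    · rw [f0]
  have r3 : ∀ i : (Σ s, K s),
      ∑ c, f (val Y (sent K α β γ θ (Sum.inr (Sum.inr (Sum.inl i))) c)) * x c =
      f (algebraMap ℂ A (θ i.1 i.2)) * P i.1 + Q i.1 := by
    intro i
    rw [Fintype.sum_sum_type, Fintype.sum_sum_type]
    simp only [sent, val, Sum.elim_inl, f0, zero_mul, sum_const_zero, zero_add]
    congr 1
    · refine Eq.trans ?_ (ite_sigma K i.1 (f (algebraMap ℂ A (θ i.1 i.2)))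
        (fun j => x (Sum.inr (Sum.inl j))))
      refine Finset.sum_congr rfl fun j _ => ?_
      split_ifs
      · rfl
      · rw [f0]
    · have := ite_sigma K i.1 (1 : B) (fun j => x (Sum.inr (Sum.inr j)))
      rw [one_mul] at this
      refine Eq.trans ?_ this
      refine Finset.sum_congr rfl fun j _ => ?_
      split_ifs
      · rw [f1]
      · rw [f0]
  have r4 : ∀ r : ρ,
      ∑ c, f (val Y (sent K α β γ θ (Sum.inr (Sum.inr (Sum.inr r))) c)) * x c =
      form Y xg (γ r) := by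
    intro i
    rw [Fintype.sum_sum_type]
    simp only [sent, val, Sum.elim_inl, f0, zero_mul, sum_const_zero, add_zero]
    rfl
  rw [Fintype.prod_sum_type, Fintype.prod_sum_type, Fintype.prod_sum_type,
    prod_congr rfl fun i _ => r1 i, prod_congr rfl fun i _ => r2 i, prod_congr rfl fun i _ => r3 i,
    prod_congr rfl fun r _ => r4 r, Fintype.prod_sigma, Fintype.prod_sigma, Fintype.prod_sigma]
  have hth : ∀ s, ∏ k, (f (algebraMap ℂ A (θ s k)) * P s + Q s) =
      Q s ^ Fintype.card (K s) + P s ^ Fintype.card (K s) := fun s =>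
    hθ s B (f.comp (algebraMap ℂ A)) (Q s) (P s)
  rw [prod_congr rfl fun s _ => hth s, ← mul_assoc, ← mul_assoc, ← prod_mul_distrib,
    ← prod_mul_distrib, hsup]
  have hx2 : ∏ c, x c = (∏ c, xg c) * ((∏ s, ∏ k, x (Sum.inr (Sum.inl ⟨s, k⟩))) *
      ∏ s, ∏ k, x (Sum.inr (Sum.inr ⟨s, k⟩))) := by
    rw [Fintype.prod_sum_type, Fintype.prod_sum_type, Fintype.prod_sigma, Fintype.prod_sigma]
  rw [hx2, map_mul, prod_mul_distrib, prod_congr rfl fun s _ => congrArg₂ _ (hPow s) (hQow s)]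
  simp only [prod_mul_distrib, map_prod, map_mul, map_natCast]
  rw [mul_assoc, hz']
  ring

end Matrix

end Helper16.N3
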