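import Pool.Agent.Helper16.N3.Super

/-!
# N3: the degree argument
-/

set_option autoImplicit false
set_option linter.unusedSectionVars false

namespace Helper16.N3

open Finset Helper16.SQG

/-- The sets of `s` slots `(r, k)` (slot `(r, k)` is the matrix position `(r, co r k)`) with distinct
rows and distinct columns. -/
noncomputable def match' {R Λ Cc : Type} [Fintype R] [Fintype Λ] (co : R → Λ → Cc) (s : ℕ) :
    Finset (Finset (R × Λ)) :=
  open Classical in
  (powersetCard s univ).filter fun S =>
    Set.InjOn Prod.fst (S : Set (R × Λ)) ∧ Set.InjOn (fun q : R × Λ => co q.1 q.2) (S : Set (R × Λ))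

section Expand

open Classical in
/-- Expansion of the product over the rows. -/
theorem prod_option_expand {B R Λ : Type} [CommRing B] [Fintype R] [Fintype Λ] (W : B) (t : R × Λ → B) :
    ∏ r, (W + ∑ k, t (r, k)) =
      ∑ S ∈ (univ : Finset (Finset (R × Λ))).filter
          (fun S : Finset (R × Λ) => Set.InjOn Prod.fst (S : Set (R × Λ))),
        W ^ (Fintype.card R - S.card) * ∏ q ∈ S, t q := by
  have h1 : ∀ r : R, W + ∑ k, t (r, k) = ∑ o : Option Λ, o.elim W fun k => t (r, k) := by
    intro r
    rw [Fintype.sum_option]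
    rfl
  rw [prod_congr rfl fun r _ => h1 r, Finset.prod_univ_sum, Fintype.piFinset_univ]
  refine Finset.sum_nbij (fun p => univ.filter fun q : R × Λ => p q.1 = some q.2) ?_ ?_ ?_ ?_
  · intro p _
    rw [mem_filter]
    refine ⟨mem_univ _, ?_⟩
    rintro ⟨r, k⟩ hq ⟨r', k'⟩ hq' h
    simp only [coe_filter, mem_univ, true_and, Set.mem_ofPred_eq] at hq hq' h
    subst h
    rw [hq] at hq'
    rw [Option.some_injective _ hq']
  · intro p _ p' _ h
    funext r
    have h2 : ∀ k, p r = some k ↔ p' r = some k := by
      intro k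
      have := Finset.ext_iff.1 h (r, k)
      simpa using this
    exact Option.ext fun k => h2 k
  · intro S hS
    have hS' : Set.InjOn Prod.fst (S : Set (R × Λ)) := by
      have := (mem_filter.1 (mem_coe.1 hS)).2
      exact this
    refine ⟨fun r => if h : ∃ k, (r, k) ∈ S then some h.choose else none, by simp, ?_⟩
    ext ⟨r, k⟩
    rw [mem_filter]
    simp only [mem_univ, true_and]
    constructor
    · intro h
      by_cases h3 : ∃ k, (r, k) ∈ S
      · rw [dif_pos h3] at h
        rw [← Option.some_injective _ h]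
        exact h3.choose_spec
      · rw [dif_neg h3] at h
        exact absurd h (by simp)
    · intro h
      have h3 : ∃ k, (r, k) ∈ S := ⟨k, h⟩
      rw [dif_pos h3]
      have h4 := hS' (mem_coe.2 h3.choose_spec) (mem_coe.2 h) rfl
      rw [(Prod.mk.inj h4).2]
  · intro p _
    have e1 : ∏ q ∈ univ.filter (fun q : R × Λ => p q.1 = some q.2), t q =
        ∏ r, (p r).elim 1 fun k => t (r, k) := by
      rw [prod_filter, Fintype.prod_prod_type]
      refine prod_congr rfl fun r _ => ?_
      rcases hp : p r with _ | k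
      · simp [hp]
      · simp [hp]
    have e2 : (univ.filter (fun q : R × Λ => p q.1 = some q.2)).card =
        (univ.filter fun r : R => p r ≠ none).card := by
      refine Finset.card_nbij Prod.fst ?_ ?_ ?_
      · intro q hq
        simp only [coe_filter, mem_univ, true_and, Set.mem_ofPred_eq] at hq ⊢
        rw [hq]
        simp
      · rintro ⟨r, k⟩ hq ⟨r', k'⟩ hq' h
        simp only [coe_filter, mem_univ, true_and, Set.mem_ofPred_eq] at hq hq' h
        subst h
        rw [hq] at hq'
        rw [Option.some_injective _ hq']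
      · intro r hr
        simp only [coe_filter, mem_univ, true_and, Set.mem_ofPred_eq] at hr
        obtain ⟨k, hk⟩ := Option.ne_none_iff_exists'.1 hr
        exact ⟨(r, k), by simp [hk], rfl⟩
    have e3 : Fintype.card R - (univ.filter fun r : R => p r ≠ none).card =
        (univ.filter fun r : R => p r = none).card := by
      have := Finset.card_filter_add_card_filter_not (s := (univ : Finset R)) (fun r => p r = none)
      rw [card_univ] at this
      change _ + (univ.filter fun r : R => p r ≠ none).card = _ at this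
      omega
    have e4 : ∏ r, (p r).elim W (fun _ => (1 : B)) = W ^ (univ.filter fun r : R => p r = none).card := by
      rw [← prod_const, prod_filter]
      refine prod_congr rfl fun r _ => ?_
      rcases hp : p r with _ | k
      · simp
      · simp
    rw [e1, e2, e3, ← e4, ← prod_mul_distrib]
    refine prod_congr rfl fun r _ => ?_
    rcases hp : p r with _ | k
    · simp
    · simp

end Expand

section Core

theorem prod_mem_Deg' {B κ ι : Type} [CommRing B] [DecidableEq κ] {x : κ → B} (hx : ∀ c, x c * x c = 0)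
    {S : Finset κ} (t : Finset ι) (y : ι → B) (m : ι → ℕ) (hy : ∀ i ∈ t, y i ∈ Deg x S (m i)) :
    ∏ i ∈ t, y i ∈ Deg x S (∑ i ∈ t, m i) :=
  (prod_sub_prod_mem hx t y y m hy (fun i _ => by rw [sub_self]; exact Submodule.zero_mem _)).1

/-- Extraction of a coefficient of a binary form. -/
theorem pow_mul_binary {B : Type} [CommRing B] {g h : B} {n : ℕ} (hg : g ^ (n + 1) = 0)
    (hh : h ^ (n + 1) = 0) (F : ℕ → B) {k : ℕ} (hk : k ≤ n) :
    g ^ k * h ^ (n - k) * ∑ K ∈ range (n + 1), F K * g ^ (n - K) * h ^ K =
      F k * (g ^ n * h ^ n) := by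
  rw [mul_sum, Finset.sum_eq_single k]
  · have e1 : g ^ k * g ^ (n - k) = g ^ n := by rw [← pow_add, Nat.add_sub_cancel' hk]
    have e2 : h ^ (n - k) * h ^ k = h ^ n := by rw [← pow_add, Nat.sub_add_cancel hk]
    rw [← e1, ← e2]
    ring
  · intro K hK hne
    rw [mem_range] at hK
    rcases lt_or_gt_of_ne hne with h1 | h1
    · have : g ^ k * g ^ (n - K) = 0 := by
        rw [← pow_add, show k + (n - K) = (n + 1) + (k - K - 1) by omega, pow_add, hg, zero_mul]
      linear_combination (h ^ (n - k) * F K * h ^ K) * this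
    · have : h ^ (n - k) * h ^ K = 0 := by
        rw [← pow_add, show n - k + K = (n + 1) + (K - k - 1) by omega, pow_add, hh, zero_mul]
      linear_combination (g ^ k * F K * g ^ (n - K)) * this
  · intro h
    exact absurd (mem_range.2 (by omega)) h

theorem top_core {B R Λ Cc τ : Type} [CommRing B] [Fintype R] [Fintype Λ] [Fintype Cc] [Fintype τ]
    (co : R → Λ → Cc) (L D s : ℕ) (hL : 1 ≤ L) (hD : 1 ≤ D)
    (a : R → Fin L → ℕ) (ha : ∀ r j, a r j ≤ D) (b : Cc → Fin L → ℕ) (hb : ∀ c j, b c j ≤ D)
    (F : Fin L → ℕ → B) (y : R × Λ → B) (l : B)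
    (xc : Cc → B) (hxc : ∀ c, xc c * xc c = 0)
    (w : B) (hw : w ^ (Fintype.card R * (L * D + 1) + Fintype.card Cc * (L * D) + 1) = 0)
    (z : τ → B) (hz : ∀ c, z c * z c = 0) (hτ : Fintype.card τ = 2 * (L * (2 * s * D)))
    (g h : Fin L → B) [DecidableEq τ] (hg : ∀ j, g j ∈ Deg z univ 1) (hh : ∀ j, h j ∈ Deg z univ 1)
    (hg0 : ∀ j, g j ^ (2 * s * D + 1) = 0) (hh0 : ∀ j, h j ^ (2 * s * D + 1) = 0) :
    (∏ r, ((∑ k, y (r, k) * xc (co r k)) * (∏ j, g j ^ a r j * h j ^ (D - a r j)) +
        w * w ^ (L * D))) *
      (∏ c, (w * (∏ j, g j ^ b c j * h j ^ (D - b c j)) + xc c * w ^ (L * D))) *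
      (l * ∏ j, h j ^ (2 * s * D) + w ^ (L * (2 * s * D))) *
      (∏ j, ∑ K ∈ range (2 * s * D + 1), F j K * g j ^ (2 * s * D - K) * h j ^ K) =
    (l * ∏ j, F j 0 + ∑ S ∈ match' co s, (∏ j, F j (∑ q ∈ S, (a q.1 j + b (co q.1 q.2) j))) *
        ∏ q ∈ S, y q) *
      ((∏ c, xc c) * w ^ (Fintype.card R * (L * D + 1) + Fintype.card Cc * (L * D)) *
        ∏ j, (g j ^ (2 * s * D) * h j ^ (2 * s * D))) := by
  classical
  set N := L * D with hN
  set n := 2 * s * D with hn
  have hN1 : 1 ≤ N := Nat.mul_pos hL hD
  have hLn : L * n = 2 * s * N := by rw [hn, hN]; ring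
  set μ := Fintype.card R * (N + 1) + Fintype.card Cc * N with hμ
  set U : R → B := fun r => ∏ j, g j ^ a r j * h j ^ (D - a r j) with hU
  set U' : Cc → B := fun c => ∏ j, g j ^ b c j * h j ^ (D - b c j) with hU'
  set H : B := ∏ j, h j ^ n with hH
  set Q : B := ∏ j, ∑ K ∈ range (n + 1), F j K * g j ^ (n - K) * h j ^ K with hQ
  have hw' : ∀ k, μ < k → w ^ k = 0 := by
    intro k hk
    rw [show k = (μ + 1) + (k - μ - 1) by omega, pow_add, hw, zero_mul]
  -- degrees in the variables `z`
  have hUD : ∀ m : Fin L → ℕ, (∀ j, m j ≤ D) →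
      ∏ j, g j ^ m j * h j ^ (D - m j) ∈ Deg z univ N := by
    intro m hm
    have := prod_mem_Deg' hz (univ : Finset (Fin L)) (fun j => g j ^ m j * h j ^ (D - m j))
      (fun j => m j + (D - m j)) (fun j _ => mul_mem_Deg hz (pow_mem_Deg hz (hg j) _)
        (pow_mem_Deg hz (hh j) _))
    have e : ∑ j : Fin L, (m j + (D - m j)) = N := by
      rw [Finset.sum_congr rfl fun j _ => Nat.add_sub_cancel' (hm j)]
      simp [hN]
    rwa [e] at this
  have hHD : H ∈ Deg z univ (L * n) := by
    have := prod_mem_Deg' hz (univ : Finset (Fin L)) (fun j => h j ^ n) (fun _ => n)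
      (fun j _ => pow_mem_Deg hz (hh j) _)
    simpa using this
  have hQD : Q ∈ Deg z univ (L * n) := by
    have := prod_mem_Deg' (S := univ) hz (univ : Finset (Fin L))
      (fun j => ∑ K ∈ range (n + 1), F j K * g j ^ (n - K) * h j ^ K) (fun _ => n) ?_
    · simpa using this
    · intro j _
      refine Submodule.sum_mem _ fun K hK => ?_
      rw [mul_assoc]
      refine mul_left_mem_Deg _ ?_
      have := mul_mem_Deg hz (pow_mem_Deg hz (hg j) (n - K)) (pow_mem_Deg hz (hh j) K)
      rwa [Nat.sub_add_cancel (by rw [mem_range] at hK; omega)] at this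
  have hVD : ∀ (S : Finset (R × Λ)) (E : Finset Cc),
      (∏ q ∈ S, U q.1) * ∏ c ∈ E, U' c ∈ Deg z univ ((S.card + E.card) * N) := by
    intro S E
    have h1 := prod_mem_Deg' hz S (fun q => U q.1) (fun _ => N) (fun q _ => hUD _ (ha q.1))
    have h2 := prod_mem_Deg' hz E U' (fun _ => N) (fun c _ => hUD _ (hb c))
    have h3 := mul_mem_Deg hz h1 h2
    rw [sum_const, sum_const, smul_eq_mul, smul_eq_mul, ← Nat.add_mul] at h3
    exact h3
  -- expansion
  set SS := (univ : Finset (Finset (R × Λ))).filter
    (fun S : Finset (R × Λ) => Set.InjOn Prod.fst (S : Set (R × Λ))) with hSS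
  have hSR : ∀ S ∈ SS, S.card ≤ Fintype.card R := by
    intro S hS
    rw [← card_univ]
    exact card_le_card_of_injOn Prod.fst (fun _ _ => mem_univ _) (mem_filter.1 hS).2
  set G : Finset (R × Λ) → Finset Cc → B := fun S E =>
    w ^ ((N + 1) * (Fintype.card R - S.card) + E.card + N * (Fintype.card Cc - E.card)) *
      (∏ q ∈ S, y q) * ((∏ q ∈ S, xc (co q.1 q.2)) * ∏ c ∈ univ \ E, xc c) *
        ((∏ q ∈ S, U q.1) * ∏ c ∈ E, U' c) with hG
  have hrow : ∏ r, ((∑ k, y (r, k) * xc (co r k)) * U r + w * w ^ N) =
      ∑ S ∈ SS, (w ^ (N + 1)) ^ (Fintype.card R - S.card) *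
        ∏ q ∈ S, (y q * xc (co q.1 q.2) * U q.1) := by
    rw [← prod_option_expand]
    refine prod_congr rfl fun r _ => ?_
    rw [sum_mul, add_comm, pow_succ, mul_comm w]
  have hcol : ∏ c, (w * U' c + xc c * w ^ N) = ∑ E ∈ (univ : Finset Cc).powerset,
      (∏ c ∈ E, (w * U' c)) * ∏ c ∈ univ \ E, (xc c * w ^ N) := Finset.prod_add _ _ _
  have hprod : (∏ r, ((∑ k, y (r, k) * xc (co r k)) * U r + w * w ^ N)) *
      (∏ c, (w * U' c + xc c * w ^ N)) = ∑ S ∈ SS, ∑ E ∈ (univ : Finset Cc).powerset, G S E := by
    rw [hrow, hcol, sum_mul_sum]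
    refine Finset.sum_congr rfl fun S _ => Finset.sum_congr rfl fun E _ => ?_
    simp only [hG, prod_mul_distrib, prod_const]
    rw [card_sdiff_of_subset (subset_univ _), card_univ, ← pow_mul, ← pow_mul, pow_add, pow_add]
    ring
  have hemp : (∅ : Finset (R × Λ)) ∈ SS := by
    rw [hSS, mem_filter]
    exact ⟨mem_univ _, by simp⟩
  set X := ∏ c, xc c with hX
  set GH := ∏ j, (g j ^ n * h j ^ n) with hGH
  -- the part with `l`
  have part1 : (∑ S ∈ SS, ∑ E ∈ (univ : Finset Cc).powerset, G S E) * (H * Q) =
      (∏ j, F j 0) * (X * w ^ μ * GH) := by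
    have hvan : ∀ (S : Finset (R × Λ)) (E : Finset Cc), 1 ≤ S.card + E.card →
        G S E * (H * Q) = 0 := by
      intro S E hSE
      have h1 := Deg_eq_zero (x := z) (S := univ) (k := (S.card + E.card) * N + (L * n + L * n))
        (by rw [card_univ, hτ]; nlinarith)
        (mul_mem_Deg hz (hVD S E) (mul_mem_Deg hz hHD hQD))
      simp only [hG]
      rw [mul_assoc, h1, mul_zero]
    rw [sum_mul, Finset.sum_eq_single ∅]
    · rw [sum_mul, Finset.sum_eq_single ∅]
      · have e1 : H * Q = (∏ j, F j 0) * GH := by
          rw [hH, hQ, hGH, ← prod_mul_distrib, ← prod_mul_distrib]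
          refine prod_congr rfl fun j _ => ?_
          have := pow_mul_binary (hg0 j) (hh0 j) (F j) (Nat.zero_le n)
          rwa [pow_zero, one_mul, Nat.sub_zero] at this
        simp only [hG]
        rw [e1, card_empty, card_empty, prod_empty, prod_empty, prod_empty, prod_empty, sdiff_empty,
          Nat.sub_zero, Nat.sub_zero, show (N + 1) * Fintype.card R + 0 + N * Fintype.card Cc = μ by
            rw [hμ]; ring]
        ring
      · intro E _ hE
        refine hvan _ _ ?_
        have := card_pos.2 (nonempty_iff_ne_empty.2 hE)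
        omega
      · intro hE
        exact absurd (mem_powerset.2 (empty_subset _)) hE
    · intro S _ hS
      rw [sum_mul]
      refine Finset.sum_eq_zero fun E _ => hvan _ _ ?_
      have := card_pos.2 (nonempty_iff_ne_empty.2 hS)
      omega
    · intro hE
      exact absurd hemp hE
  -- the part without `l`
  have part2 : (∑ S ∈ SS, ∑ E ∈ (univ : Finset Cc).powerset, G S E) * (w ^ (L * n) * Q) =
      (∑ S ∈ match' co s, (∏ j, F j (∑ q ∈ S, (a q.1 j + b (co q.1 q.2) j))) * ∏ q ∈ S, y q) *
        (X * w ^ μ * GH) := by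
    have hvan : ∀ S ∈ SS, ∀ E : Finset Cc, ¬ (S.card = s ∧ E.card = s) →
        G S E * (w ^ (L * n) * Q) = 0 := by
      intro S hS E hSE
      have hS1 := hSR S hS
      have hE1 : E.card ≤ Fintype.card Cc := card_le_univ E
      by_cases c1 : 2 * s < S.card + E.card
      · have h1 := Deg_eq_zero (x := z) (S := univ) (k := (S.card + E.card) * N + L * n)
          (by rw [card_univ, hτ]; nlinarith) (mul_mem_Deg hz (hVD S E) hQD)
        simp only [hG]
        linear_combination (w ^ ((N + 1) * (Fintype.card R - S.card) + E.card +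
          N * (Fintype.card Cc - E.card)) * (∏ q ∈ S, y q) * ((∏ q ∈ S, xc (co q.1 q.2)) *
          ∏ c ∈ univ \ E, xc c) * w ^ (L * n)) * h1
      · by_cases c2 : E.card < S.card
        · have h1 : (∏ q ∈ S, xc (co q.1 q.2)) * ∏ c ∈ univ \ E, xc c = 0 := by
            apply Deg_eq_zero (x := xc) (S := univ) (k := S.card + (univ \ E).card)
            · rw [card_sdiff_of_subset (subset_univ _), card_univ]
              omega
            · exact mul_mem_Deg hxc (prod_mem_Deg hxc S _ fun q _ => x_mem_Deg (mem_univ _))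
                (prod_mem_Deg hxc _ _ fun q _ => x_mem_Deg (mem_univ _))
          simp only [hG]
          rw [h1]
          ring
        · have h1 : w ^ ((N + 1) * (Fintype.card R - S.card) + E.card +
            N * (Fintype.card Cc - E.card) + L * n) = 0 := by
            apply hw'
            obtain ⟨r, hr⟩ := Nat.exists_eq_add_of_le hS1
            obtain ⟨c, hc⟩ := Nat.exists_eq_add_of_le hE1
            rw [hμ, hr, hc, Nat.add_sub_cancel_left, Nat.add_sub_cancel_left, hLn]
            have c3 : S.card + E.card < 2 * s ∨ (S.card + E.card = 2 * s ∧ S.card < E.card) := by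
              omega
            rcases c3 with c3 | c3
            · nlinarith
            · nlinarith
          simp only [hG]
          rw [pow_add] at h1
          linear_combination ((∏ q ∈ S, y q) * ((∏ q ∈ S, xc (co q.1 q.2)) *
            ∏ c ∈ univ \ E, xc c) * ((∏ q ∈ S, U q.1) * ∏ c ∈ E, U' c) * Q) * h1
    rw [sum_mul, sum_mul]
    symm
    have hsub : match' co s ⊆ SS := by
      intro S hS
      rw [hSS, mem_filter]
      unfold match' at hS
      rw [mem_filter] at hS
      exact ⟨mem_univ _, hS.2.1⟩
    refine Finset.sum_subset_zero_on_sdiff hsub ?_ ?_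
    · intro S hS
      rw [mem_sdiff] at hS
      rw [sum_mul]
      refine Finset.sum_eq_zero fun E _ => ?_
      by_cases hc : S.card = s ∧ E.card = s
      · have hS1 := (mem_filter.1 hS.1).2
        have hni : ¬ Set.InjOn (fun q : R × Λ => co q.1 q.2) (S : Set (R × Λ)) := by
          intro hi
          apply hS.2
          unfold match'
          rw [mem_filter, mem_powersetCard]
          exact ⟨⟨subset_univ _, hc.1⟩, hS1, hi⟩
        have h1 : ∏ q ∈ S, xc (co q.1 q.2) = 0 := by
          unfold Set.InjOn at hni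
          push Not at hni
          obtain ⟨q, hq, q', hq', he, hne⟩ := hni
          rw [← mul_prod_erase S _ (mem_coe.1 hq),
            ← mul_prod_erase (S.erase q) _ (mem_erase.2 ⟨hne.symm, mem_coe.1 hq'⟩)]
          change co q.1 q.2 = co q'.1 q'.2 at he
          rw [he, ← mul_assoc, hxc, zero_mul]
        simp only [hG]
        rw [h1]
        ring
      · exact hvan S hS.1 E hc
    · intro S hS
      have hS0 := hsub hS
      unfold match' at hS
      rw [mem_filter, mem_powersetCard] at hS
      obtain ⟨⟨_, hcard⟩, hi1, hi2⟩ := hS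
      have hcim : (S.image fun q : R × Λ => co q.1 q.2).card = s := by
        rw [card_image_of_injOn hi2, hcard]
      have hxim : ∏ q ∈ S, xc (co q.1 q.2) = ∏ c ∈ S.image (fun q : R × Λ => co q.1 q.2), xc c := by
        rw [prod_image hi2]
      rw [sum_mul, Finset.sum_eq_single (S.image fun q : R × Λ => co q.1 q.2)]
      · set E := S.image fun q : R × Λ => co q.1 q.2 with hE
        have hScard := hSR S hS0
        have hEcard : E.card ≤ Fintype.card Cc := card_le_univ E
        have e1 : (∏ q ∈ S, xc (co q.1 q.2)) * ∏ c ∈ univ \ E, xc c = X := by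
          rw [hxim, mul_comm]
          exact prod_sdiff (subset_univ E)
        have e2 : w ^ ((N + 1) * (Fintype.card R - S.card) + E.card +
            N * (Fintype.card Cc - E.card)) * w ^ (L * n) = w ^ μ := by
          rw [← pow_add]
          congr 1
          obtain ⟨r, hr⟩ := Nat.exists_eq_add_of_le hScard
          obtain ⟨c, hc⟩ := Nat.exists_eq_add_of_le hEcard
          rw [hμ, hr, hc, Nat.add_sub_cancel_left, Nat.add_sub_cancel_left, hLn, hcim, hcard]
          ring
        have e3 : ((∏ q ∈ S, U q.1) * ∏ c ∈ E, U' c) * Q =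
            (∏ j, F j (∑ q ∈ S, (a q.1 j + b (co q.1 q.2) j))) * GH := by
          have e4 : (∏ q ∈ S, U q.1) * ∏ c ∈ E, U' c =
              ∏ j, (g j ^ (∑ q ∈ S, (a q.1 j + b (co q.1 q.2) j)) *
                h j ^ (n - ∑ q ∈ S, (a q.1 j + b (co q.1 q.2) j))) := by
            rw [hE, prod_image hi2]
            simp only [hU, hU']
            rw [prod_comm, prod_comm (s := S), ← prod_mul_distrib]
            refine prod_congr rfl fun j _ => ?_
            rw [← prod_mul_distrib, ← prod_pow_eq_pow_sum]
            have e5 : n - ∑ q ∈ S, (a q.1 j + b (co q.1 q.2) j) =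
                ∑ q ∈ S, ((D - a q.1 j) + (D - b (co q.1 q.2) j)) := by
              have e6 : ∑ q ∈ S, (a q.1 j + b (co q.1 q.2) j) +
                  ∑ q ∈ S, ((D - a q.1 j) + (D - b (co q.1 q.2) j)) = n := by
                rw [← Finset.sum_add_distrib]
                have e7 : ∀ q ∈ S, (a q.1 j + b (co q.1 q.2) j) +
                    ((D - a q.1 j) + (D - b (co q.1 q.2) j)) = 2 * D := by
                  intro q _
                  have := ha q.1 j
                  have := hb (co q.1 q.2) j
                  omega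
                rw [Finset.sum_congr rfl e7, sum_const, hcard, hn, smul_eq_mul]
                ring
              omega
            rw [e5, ← prod_pow_eq_pow_sum, ← prod_mul_distrib]
            refine prod_congr rfl fun q _ => ?_
            rw [pow_add, pow_add]
            ring
          rw [e4, hQ, hGH, ← prod_mul_distrib, ← prod_mul_distrib]
          refine prod_congr rfl fun j _ => ?_
          refine pow_mul_binary (hg0 j) (hh0 j) (F j) ?_
          have e7 : ∀ q ∈ S, (a q.1 j + b (co q.1 q.2) j) ≤ 2 * D := by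
            intro q _
            have := ha q.1 j
            have := hb (co q.1 q.2) j
            omega
          calc ∑ q ∈ S, (a q.1 j + b (co q.1 q.2) j) ≤ ∑ q ∈ S, 2 * D := Finset.sum_le_sum e7
            _ = n := by rw [sum_const, hcard, hn, smul_eq_mul]; ring
        simp only [hG]
        rw [e1]
        linear_combination (-(∏ q ∈ S, y q) * X * ((∏ q ∈ S, U q.1) * ∏ c ∈ E, U' c) * Q) * e2 -
          w ^ μ * (∏ q ∈ S, y q) * X * e3
      · intro E _ hE
        by_cases hc : S.card = s ∧ E.card = s
        · have h1 : (∏ q ∈ S, xc (co q.1 q.2)) * ∏ c ∈ univ \ E, xc c = 0 := by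
            rw [hxim]
            have : ∃ c ∈ S.image (fun q : R × Λ => co q.1 q.2), c ∉ E := by
              by_contra hcon
              push Not at hcon
              exact hE (Finset.eq_of_subset_of_card_le hcon (by rw [hcim, hc.2])).symm
            obtain ⟨c, hc1, hc2⟩ := this
            rw [← mul_prod_erase _ xc hc1,
              ← mul_prod_erase (univ \ E) xc (mem_sdiff.2 ⟨mem_univ _, hc2⟩)]
            linear_combination ((∏ c ∈ (S.image (fun q : R × Λ => co q.1 q.2)).erase c, xc c) *
              ∏ c ∈ (univ \ E).erase c, xc c) * hxc c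
          simp only [hG]
          rw [h1]
          ring
        · exact hvan S hS0 E hc
      · intro hE
        exact absurd (mem_powerset.2 (subset_univ _)) hE
  rw [hprod]
  linear_combination l * part1 + part2

end Core

end Helper16.N3
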